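import Pool.Agent.Lib.UL.Blue

namespace Pool.Agent.Lib.UL

open Finset Pool.Agent.Lib.MP_0f05cd_nt

namespace ACT

lemma ne_zero {I : Finset ℕ} {b : ℕ → ℤ} {gs : List ℤ} {L ρ i : ℕ}
    (hG : Good I b gs (4 * L + 2) ((4 * L + 2) * ρ)) (hi : i ∈ I) {α : ℤ}
    (h : α - b i ∈ sp gs ρ) : α ≠ 0 := by
  rintro rfl
  have h1 := sp_neg h
  rw [show -(0 - b i) = b i by ring] at h1
  have := hG (dl i) ((sum_dl_abs I i).trans (by omega))
    (by rw [sum_dl_mul I b i hi]; exact sp_mono (Nat.le_mul_of_pos_left ρ (by omega)) h1) i hi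
  simp [dl] at this

lemma fib_eq {I : Finset ℕ} {b : ℕ → ℤ} {gs : List ℤ} {L ρ i j : ℕ}
    (hG : Good I b gs (4 * L + 2) ((4 * L + 2) * ρ)) (hi : i ∈ I) (hj : j ∈ I) {α : ℤ}
    (h : α - b i ∈ sp gs ρ) (h' : α - b j ∈ sp gs ρ) : i = j := by
  by_contra hne
  have h1 := sp_sub h' h
  rw [show α - b j - (α - b i) = b i - b j by ring] at h1
  have := hG (fun t => dl i t - dl j t) ?_ ?_ i hi
  · simp [dl, hne] at this
  · have a1 := sum_dl_abs I i
    have a2 := sum_dl_abs I j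
    calc ∑ t ∈ I, (dl i t - dl j t).natAbs ≤ ∑ t ∈ I, ((dl i t).natAbs + (dl j t).natAbs) :=
          sum_le_sum (fun t _ => Int.natAbs_sub_le _ _)
      _ ≤ 4 * L + 2 := by rw [sum_add_distrib]; omega
  · simp only [sub_mul, sum_sub_distrib, sum_dl_mul I b i hi, sum_dl_mul I b j hj]
    exact sp_mono (by nlinarith) h1

lemma arith (s t μ σ c : ℕ) (ht : 1 ≤ t) (h1 : 2 + 32 * μ ≤ σ) (h2 : 2 * c < σ ^ 2) (hs : σ ≤ s)
    (h : s * t * (s * t) ≤ s * t + s * t * (8 * t) * (2 * μ) + c * (t * t)) : False := by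
  have a1 : s * t ≤ s * (t * t) := Nat.mul_le_mul_left _ (Nat.le_mul_self t)
  have a2 : (s * s) * (t * t) ≤ (s + 16 * μ * s + c) * (t * t) := by nlinarith
  have a3 : s * s ≤ s + 16 * μ * s + c := Nat.le_of_mul_le_mul_right a2 (by positivity)
  have a4 : σ ^ 2 ≤ s * s := by rw [pow_two]; exact Nat.mul_le_mul hs hs
  have a5 : (2 + 32 * μ) * s ≤ s * s := Nat.mul_le_mul_right _ (h1.trans hs)
  nlinarith

end ACT

theorem st_ACT (hR : St_ROOT) (hGr : St_GRID) (hE : St_EXT) (hS : St_SEL) (hI : St_INT) :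
    St_ACT := by
  classical
  intro V D gs n L μ q σ T t ρ ρ1 m0 B I b F hn hL hpos hNU hD hP hm0 hG hF hFc ht hρ1 hIq hq hT
    hσ1 hσ2
  rcases I.eq_empty_or_nonempty with rfl | ⟨i0, hi0⟩
  · exact ⟨[], by simp, by simp; omega⟩
  have hFV : ∀ i ∈ I, ∀ α ∈ F i, α ∈ V ∧ α ≤ B ∧ α - b i ∈ sp gs ρ :=
    fun i hi α hα => mem_Wn.mp (mem_inter.mp (hF i hi hα)).1
  have hFB : ∀ i ∈ I, ∀ α ∈ F i, α ∈ Bot V D (2 ^ L * (2 ^ L * m0)) :=
    fun i hi α hα => (mem_inter.mp (hF i hi hα)).2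
  obtain ⟨α0, hα0⟩ : (F i0).Nonempty := card_pos.mp (by rw [hFc i0 hi0]; omega)
  have hn1 : 1 ≤ n := le_trans (card_pos.mpr ⟨α0, (hFV i0 hi0 α0 hα0).1⟩) hn
  have hB0 : 0 ≤ B := (hpos _ (hFV i0 hi0 α0 hα0).1).trans (hFV i0 hi0 α0 hα0).2.1
  have hL1 : 1 ≤ L := by
    rcases Nat.eq_zero_or_pos L with h | h
    · subst h; simp at hL; omega
    · exact h
  obtain ⟨Λ, hΛ⟩ : ∃ Λ, Λ = 2 ^ L := ⟨_, rfl⟩
  rw [← hΛ] at hP hF hρ1 hFB
  have hΛn : 2 * n < Λ := by rw [hΛ]; exact hL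
  set m := Λ * m0 with hm
  set R := Λ * m with hRdef
  have b1 : n * m0 ≤ m := Nat.mul_le_mul_right _ (by omega)
  have b2 : (n + 2) * m ≤ R := Nat.mul_le_mul_right _ (by omega)
  have b3 : m0 ≤ m := Nat.le_mul_of_pos_left _ (by omega)
  have b4 : 3 * m ≤ R := Nat.mul_le_mul_right _ (by omega)
  obtain ⟨hc, hroot⟩ := hR V D n m0 hn
  set V' := V.filter (fun v => v ≤ 2 * B) with hV'
  set e : ℕ → ℤ → ℕ := fun i g => ((F i).filter (fun β => β + g ∈ V')).card with he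
  obtain ⟨G, hGd, hGl, hGc⟩ := hS D R (17 * t * L) t (q * (17 * t * L)) I e
    (fun i hi g => (card_filter_le _ _).trans (hFc i hi).le)
  have hcap : 0 < 17 * t * L := by positivity
  have hlen : G.length ≤ T := by
    have h1 : (q * G.length) * (17 * t * L) ≤ I.card * (17 * t * L) := by nlinarith
    have h2 := Nat.le_of_mul_le_mul_right h1 hcap
    exact Nat.le_of_mul_le_mul_left (h2.trans hIq) hq
  refine ⟨G, hlen, ?_⟩
  set Y : ℕ → Finset ℤ := fun i => Wn V (G ++ gs) (ρ + ρ1) (2 * B) (b i) ∩ Bot V D m0 with hY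
  set A := I.filter (fun i => (Y i).card < 8 * t) with hA
  have hAI : A ⊆ I := filter_subset _ _
  by_contra hcon
  have hσA : σ ≤ A.card := not_lt.mp hcon
  have hYmem : ∀ i z, z ∈ Bot V D m0 → z ≤ 2 * B → z - b i ∈ sp (G ++ gs) (ρ + ρ1) → z ∈ Y i :=
    fun i z h1 h2 h3 => mem_inter.mpr ⟨mem_Wn.mpr ⟨(mem_Bot.mp h1).1, h2, h3⟩, h1⟩
  have hgrid : ∀ i ∈ A, (G.map (e i)).sum + t ≤ 17 * t * L := by
    intro i hiA
    obtain ⟨hi, hact⟩ := mem_filter.mp hiA
    have hYn : (Y i).card ≤ n :=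
      (card_le_card (fun z hz => (mem_Bot.mp (mem_inter.mp hz).2).1)).trans hn
    have h1 := hGr D (n * m0) R L (Y i) (F i) G ?_ ?_ hGd ?_ (by omega)
    · have h2 : (G.map (e i)).sum ≤ (G.map (fun g => ((F i).filter
          (fun β => ∃ y ∈ Y i, y - β - g ∈ sp D (n * m0))).card)).sum := by
        apply List.sum_le_sum
        intro g hg
        apply card_le_card
        intro β hβ
        obtain ⟨hβ, hβg⟩ := mem_filter.mp hβ
        obtain ⟨hv, hle⟩ := mem_filter.mp hβg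
        obtain ⟨z, hzB, hzle, hzc⟩ := hroot _ hv
        have h3 := sp_neg (hc _ _ hzc)
        refine mem_filter.mpr ⟨hβ, z, hYmem i z hzB (hzle.trans hle) ?_, ?_⟩
        · have := sp_add (sp_add (sp_app_right G (hFV i hi β hβ).2.2)
            (sp_app_left gs (sp_of_mem hg))) (sp_app_right G (hD _ _ h3))
          rw [show β - b i + g + -(β + g - z) = z - b i by ring] at this
          exact sp_mono (by omega) this
        · rwa [show -(β + g - z) = z - β - g by ring] at h3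
      have h3 : 2 * (Y i).card * L ≤ 2 * (8 * t) * L := by gcongr
      have h4 : t * 1 ≤ t * L := Nat.mul_le_mul_left _ hL1
      have e1 : 2 * (8 * t) * L = 16 * (t * L) := by ring
      have e2 : 17 * t * L = 17 * (t * L) := by ring
      omega
    · intro β hβ
      have h1 := hFV i hi β hβ
      exact hYmem i β (Bot_anti (fun z hz => sp_mono (by omega) hz) (hFB i hi β hβ)) (by omega)
        (sp_app_right G (sp_mono (by omega) h1.2.2))
    · intro β hβ β' hβ' h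
      exact Bot_eq (hFB i hi β hβ) (hFB i hi β' hβ') (sp_mono (by omega) h)
    · calc (2 * G.length + 1) * (n * m0) ≤ Λ * m := Nat.mul_le_mul (by omega) b1
        _ = R := rfl
  set Φ := A.biUnion F with hΦ
  have hΦc : Φ.card = A.card * t := by
    rw [hΦ, card_biUnion]
    · rw [sum_congr rfl (fun i hi => hFc i (hAI hi))]; simp
    · intro i hi j hj hne
      refine disjoint_left.mpr (fun α h1 h2 => hne ?_)
      exact ACT.fib_eq hG (hAI hi) (hAI hj) (hFV i (hAI hi) α h1).2.2 (hFV j (hAI hj) α h2).2.2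
  have hex : ∀ α ∈ Φ, ∃ i ∈ A, α ∈ F i := fun α hα => mem_biUnion.mp hα
  choose! f hfA hfF using hex
  have hΦV : ∀ α ∈ Φ, α ∈ V ∧ α ≤ B ∧ α - b (f α) ∈ sp gs ρ :=
    fun α hα => hFV _ (hAI (hfA α hα)) α (hfF α hα)
  have hΦpos : ∀ α ∈ Φ, 0 < α := by
    intro α hα
    have h1 := hpos α (hΦV α hα).1
    have h2 := ACT.ne_zero hG (hAI (hfA α hα)) (hΦV α hα).2.2
    omega
  set P : ℤ × ℤ → Prop := fun p => ∃ x ∈ V, ∃ y ∈ V,
    x + y = p.1 + p.2 ∧ x ≠ p.1 ∧ Inn D R G (p.1 - x) with hPdef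
  have hint := hI V D G n m0 m R μ (8 * t) B Φ (fun α => Y (f α)) hn hpos b1 b2 hP
    (fun α hα => hFB _ (hAI (hfA α hα)) α (hfF α hα)) (fun α hα => (hΦV α hα).2.1)
    (fun α hα => (mem_filter.mp (hfA α hα)).2.le) ?_ (Φ.offDiag.filter P) ?_
  rotate_left
  · intro α hα z hz hz2 ⟨u, hu, hu'⟩
    apply hYmem _ z hz hz2
    have := sp_sub (sp_sub (sp_app_right G (hΦV α hα).2.2) (sp_app_left gs hu))
      (sp_app_right G (hD _ _ hu'))
    rw [show α - b (f α) - u - (α - z - u) = z - b (f α) by ring] at this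
    exact sp_mono (by omega) this
  · intro p hp
    obtain ⟨h1, h2⟩ := mem_filter.mp hp
    obtain ⟨a1, a2, _⟩ := mem_offDiag.mp h1
    exact ⟨a1, a2, h2⟩
  have hV'c : V'.card ≤ n := (card_filter_le _ _).trans hn
  have hGA : Good A b gs (4 * L + 2) ((4 * L + 2) * ρ) := by
    intro c h1 h2 i hi
    have key : ∀ (φ : ℕ → ℤ → ℤ), (∀ i, φ i 0 = 0) →
        ∑ i ∈ I, φ i (if i ∈ A then c i else 0) = ∑ i ∈ A, φ i (c i) := by
      intro φ h0
      rw [← sum_subset hAI]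
      · exact sum_congr rfl (fun i hi => by rw [if_pos hi])
      · intro i _ hi
        rw [if_neg hi, h0]
    have := hG (fun i => if i ∈ A then c i else 0) ?_ ?_ i (hAI hi)
    · simpa [hi] using this
    · have k1 := key (fun _ z => (z.natAbs : ℤ)) (by simp)
      have : ((∑ i ∈ I, (if i ∈ A then c i else 0).natAbs : ℕ) : ℤ)
          = ((∑ i ∈ A, (c i).natAbs : ℕ) : ℤ) := by
        rw [Nat.cast_sum, Nat.cast_sum]; exact k1
      have := Nat.cast_injective this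
      omega
    · have k2 := key (fun i z => z * b i) (by simp)
      rw [k2]; exact h2
  have hext := hE A b gs ρ L t (q * (17 * t * L)) F V' (fun g => ¬ Inn D R G g) hGA
    (fun i hi α hα => (hFV i (hAI hi) α hα).2.2) (fun i hi => (hFc i (hAI hi)).le) ?_ (by omega)
    (Φ.offDiag.filter (fun p => ¬ P p)) ?_
  rotate_left
  · intro g hg
    refine le_trans ?_ (hGc g hg A hAI hgrid)
    rw [filter_biUnion]
    exact card_biUnion_le
  · intro p hp
    obtain ⟨h1, h2⟩ := mem_filter.mp hp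
    obtain ⟨a1, a2, a3⟩ := mem_offDiag.mp h1
    obtain ⟨x, hx, y, hy, hs, hx1, hx2⟩ := hNU p.1 (hΦV _ a1).1 p.2 (hΦV _ a2).1 a3
      (hΦpos _ a1) (hΦpos _ a2) (hΦV _ a1).2.1 (hΦV _ a2).2.1
    have c1 := hpos x hx
    have c2 := hpos y hy
    have c3 := (hΦV _ a1).2.1
    have c4 := (hΦV _ a2).2.1
    refine ⟨a1, a2, x, mem_filter.mpr ⟨hx, by omega⟩, y, mem_filter.mpr ⟨hy, by omega⟩, hs,
      fun h => h2 ⟨x, hx, y, hy, hs, hx1, h⟩, fun h => h2 ⟨y, hy, x, hx, by omega, by omega, h⟩⟩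
  have h3 := card_filter_add_card_filter_not (s := Φ.offDiag) P
  rw [offDiag_card, hΦc] at h3
  rw [hΦc] at hint
  have h4 : 16 * V'.card * L * t * (q * (17 * t * L)) ≤ (272 * n * L ^ 2 * q) * (t * t) := by
    calc _ ≤ 16 * n * L * t * (q * (17 * t * L)) := by gcongr
      _ = _ := by ring
  exact ACT.arith A.card t μ σ (272 * n * L ^ 2 * q) ht hσ1 (by linarith) hσA (by omega)

end Pool.Agent.Lib.UL
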