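import Pool.Agent.Lib.UL.Blue

namespace Pool.Agent.Lib.UL

open Finset Pool.Agent.Lib.MP_0f05cd_nt

theorem st_CORE (hR : St_ROOT) (hP : St_POP) (hS : St_STEP) : St_CORE := by
  classical
  intro V n L μ q σ T k L0 d l X b hn hL hpos hNU hX hb hdis hd hμ hL0 hk hkq hq hT hσ1 hσ2
  have hL00 : L0 ≠ 0 := by
    rintro rfl
    simp at hL0
  have hk0 : 0 < k := by nlinarith [Nat.pos_of_ne_zero hL00]
  have hn1 : 1 ≤ n := le_trans (card_pos.mpr ⟨_, (hb 0 hk0).1⟩) hn
  have hΛ : 2 * n + 2 ≤ 2 ^ L := by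
    obtain ⟨L', rfl⟩ : ∃ L', L = L' + 1 := ⟨L - 1, by
      rcases Nat.eq_zero_or_pos L with h | h
      · subst h; simp at hL; omega
      · omega⟩
    rw [pow_succ] at hL ⊢
    omega
  obtain ⟨D, hD1, hD2⟩ := hP V n L μ (2 ^ L) hn hΛ
  have hDd : D.length ≤ d := Nat.le_of_mul_le_mul_left (hD1.trans hd) hμ
  obtain ⟨hc, hroot⟩ := hR V D n ((2 ^ L) ^ (2 * L)) hn
  have key : ∀ r ≤ l, ∃ K : List ℤ, K.length ≤ r * T ∧
      r * σ ≤ pot V D (K ++ D) ((n + 4 * r) * (2 ^ L) ^ (2 * L)) (2 ^ r * X) b k L := by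
    intro r
    induction r with
    | zero => intro _; exact ⟨[], by simp, by simp⟩
    | succ r ih =>
      intro hr
      obtain ⟨K, hK, hpot⟩ := ih (by omega)
      have hone : (1 : ℤ) ≤ 2 ^ r := one_le_pow₀ (by norm_num)
      have hle : (2 : ℤ) ^ r * X ≤ 2 ^ l * X :=
        mul_le_mul_of_nonneg_right (pow_le_pow_right₀ (by norm_num) (by omega)) hX
      have hXle : X ≤ 2 ^ r * X := le_mul_of_one_le_left hX hone
      have hh := hS V D (K ++ D) n L μ q σ T k L0 ((n + 4 * r) * (2 ^ L) ^ (2 * L))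
        (2 ^ r * X) b hn hL hpos
        (fun a ha c hc h1 h2 h3 h4 h5 => hNU a ha c hc h1 h2 h3 (h4.trans hle) (h5.trans hle))
        (hX.trans hXle) (fun m z hz => sp_app_right K hz) hD2 hdis ?_ ?_ hk hkq hq hT hσ1 hσ2
      · obtain ⟨G, hG1, hG2⟩ := hh
        refine ⟨G ++ K, by rw [List.length_append, Nat.succ_mul]; omega, ?_⟩
        have e1 : (n + 4 * (r + 1)) * (2 ^ L) ^ (2 * L)
            = (n + 4 * r) * (2 ^ L) ^ (2 * L) + 4 * (2 ^ L) ^ (2 * L) := by ring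
        have e2 : (2 : ℤ) ^ (r + 1) * X = 2 * (2 ^ r * X) := by ring
        rw [e1, e2, List.append_assoc, Nat.succ_mul]
        omega
      · refine lt_of_le_of_lt ?_ hL0
        have h1 : r * T ≤ l * T := Nat.mul_le_mul_right _ (by omega)
        refine le_trans (Nat.pow_le_pow_left ?_ _) (Nat.pow_le_pow_right (by omega) ?_)
        · have : r ≤ l := by omega
          gcongr
        · rw [List.length_append]; omega
      · intro i hi
        obtain ⟨w, hw1, hw2, hw3⟩ := hroot _ (hb i hi).1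
        refine ⟨w, mem_inter.mpr ⟨mem_Wn.mpr ⟨(mem_Bot.mp hw1).1,
          hw2.trans ((hb i hi).2.trans hXle), ?_⟩, hw1⟩⟩
        have := sp_neg (hc _ _ hw3)
        rw [neg_sub] at this
        exact sp_app_right K (sp_mono (Nat.mul_le_mul_right _ (by omega)) this)
  obtain ⟨K, _, h⟩ := key l le_rfl
  refine h.trans ?_
  unfold pot
  refine (sum_le_card_nsmul _ _ (L ^ 2) (fun i _ => ?_)).trans (by simp)
  refine (sum_le_card_nsmul _ _ L (fun j hj => ?_)).trans (by simp [pow_two])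
  apply le_of_lt
  apply Nat.log_lt_of_lt_pow' (by have := mem_range.mp hj; omega)
  have := card_le_card (fun z (hz : z ∈ Wn V (K ++ D) ((n + 4 * l) * (2 ^ L) ^ (2 * L)) (2 ^ l * X)
    (b i) ∩ Bot V D ((2 ^ L) ^ (2 * j))) => (mem_Bot.mp (mem_inter.mp hz).2).1)
  omega

end Pool.Agent.Lib.UL
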