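import Pool.Agent.Lib.UL.Blue

namespace Pool.Agent.Lib.UL

open Finset Pool.Agent.Lib.MP_0f05cd_nt

namespace COUNT

lemma noUniq (U : Set ℤ) (hpos : ∀ u ∈ U, 1 ≤ u)
    (hU : ∀ a ∈ U, ∀ b ∈ U, a ≠ b → a + b ∈ U ∨ ∃ x ∈ U, ∃ y ∈ U, x + y = a + b ∧ x ≠ a ∧ x ≠ b)
    (B : ℤ) : NoUniq (insert 0 (win U (2 * B))) B := by
  intro a ha b hb hab ha0 hb0 haB hbB
  have haU : a ∈ U := by
    rcases mem_insert.mp ha with h | h
    · omega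
    · exact (mem_win.mp h).2.2
  have hbU : b ∈ U := by
    rcases mem_insert.mp hb with h | h
    · omega
    · exact (mem_win.mp h).2.2
  rcases hU a haU b hbU hab with h | ⟨x, hx, y, hy, h1, h2, h3⟩
  · exact ⟨a + b, mem_insert_of_mem (mem_win.mpr ⟨by omega, by omega, h⟩), 0, mem_insert_self _ _,
      by omega, by omega, by omega⟩
  · have := hpos x hx
    have := hpos y hy
    exact ⟨x, mem_insert_of_mem (mem_win.mpr ⟨by omega, by omega, hx⟩), y,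
      mem_insert_of_mem (mem_win.mpr ⟨by omega, by omega, hy⟩), h1, h2, h3⟩

lemma base_lt (a τ : ℕ) (ha : 200 ≤ a) (hτ : τ = 2 ^ a) (h4 : a ^ 4 ≤ τ) :
    2 * ((4 * (3 * a) + 2) * ((τ ^ 2 + 4 * (324 * a ^ 4 + 1)) * (2 ^ (3 * a)) ^ (2 * (3 * a)))
      * (20 * a ^ 2 * (326 * (a ^ 4 * τ)))) + 1 < 2 ^ (20 * a ^ 2) := by
  have ha2 : 200 * a ≤ a ^ 2 := by rw [pow_two]; exact Nat.mul_le_mul_right _ ha
  have ha4 : a ^ 2 * a ^ 2 = a ^ 4 := by ring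
  have ha5 : 40000 * a ^ 2 ≤ a ^ 4 := by
    rw [← ha4]; exact Nat.mul_le_mul_right _ (by omega)
  have h1 : 4 * (3 * a) + 2 ≤ τ := by omega
  have h2 : τ ^ 2 + 4 * (324 * a ^ 4 + 1) ≤ 2 * τ ^ 2 := by
    have : 2000 * τ ≤ τ ^ 2 := by rw [pow_two]; exact Nat.mul_le_mul_right _ (by omega)
    omega
  have h3 : 20 * a ^ 2 * (326 * (a ^ 4 * τ)) ≤ τ ^ 3 := by
    have e1 : 20 * a ^ 2 * (326 * (a ^ 4 * τ)) = (6520 * a ^ 2) * a ^ 4 * τ := by ring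
    have e2 : τ ^ 3 = τ * τ * τ := by ring
    rw [e1, e2]
    exact Nat.mul_le_mul_right _ (Nat.mul_le_mul (by omega) h4)
  have e1 : (2 ^ (3 * a)) ^ (2 * (3 * a)) = 2 ^ (18 * a ^ 2) := by
    rw [← pow_mul]; congr 1; ring
  rw [e1]
  have h5 : (4 * (3 * a) + 2) * ((τ ^ 2 + 4 * (324 * a ^ 4 + 1)) * 2 ^ (18 * a ^ 2))
      * (20 * a ^ 2 * (326 * (a ^ 4 * τ))) ≤ τ * (2 * τ ^ 2 * 2 ^ (18 * a ^ 2)) * τ ^ 3 :=
    Nat.mul_le_mul (Nat.mul_le_mul h1 (Nat.mul_le_mul_right _ h2)) h3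
  have e2 : τ * (2 * τ ^ 2 * 2 ^ (18 * a ^ 2)) * τ ^ 3 = 2 * 2 ^ (18 * a ^ 2 + a * 6) := by
    rw [pow_add, pow_mul 2 a 6, ← hτ]; ring
  have h6 : 2 ^ (18 * a ^ 2 + a * 6 + 3) ≤ 2 ^ (20 * a ^ 2) :=
    Nat.pow_le_pow_right (by norm_num) (by omega)
  have h7 : 0 < 2 ^ (18 * a ^ 2 + a * 6) := by positivity
  rw [pow_add _ _ 3] at h6
  rw [e2] at h5
  omega

end COUNT

theorem st_COUNT (hC : St_CORE) : St_COUNT := by
  intro U hpos hU hgap a ha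
  by_contra hc
  push Not at hc
  have h4 := pow4_le a (by omega)
  obtain ⟨τ, hτ⟩ : ∃ τ, τ = 2 ^ a := ⟨_, rfl⟩
  have e4 : 4 ^ a = τ ^ 2 := by rw [hτ, ← pow_mul, mul_comm, pow_mul]; norm_num
  rw [e4, ← hτ] at hc
  rw [← hτ] at h4
  have ha1 : 1 ≤ a := by omega
  have ha2 : 200 * a ≤ a ^ 2 := by rw [pow_two]; exact Nat.mul_le_mul_right _ ha
  have ha4 : a ^ 2 * a ^ 2 = a ^ 4 := by ring
  have ha5 : 40000 * a ^ 2 ≤ a ^ 4 := by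
    rw [← ha4]; exact Nat.mul_le_mul_right _ (by omega)
  have hτ1 : 1 ≤ τ := by omega
  obtain ⟨b, hb1, hb2⟩ := exists_base U 2 (by norm_num) hgap (2 * (4 * (3 * a) + 2))
  obtain ⟨k, hk⟩ : ∃ k, k = 180000 * a ^ 7 * τ := ⟨_, rfl⟩
  obtain ⟨l, hl⟩ : ∃ l, l = 324 * a ^ 4 + 1 := ⟨_, rfl⟩
  have hq : (2 * (((2 * (4 * (3 * a) + 2) : ℕ) : ℤ) + 1)) ≤ 2 ^ a := by
    have : 2 * (2 * (4 * (3 * a) + 2) + 1) ≤ 2 ^ a := by omega
    exact_mod_cast this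
  have hP5 : 0 < a ^ 5 * τ := by positivity
  have hP7 : 0 < a ^ 7 * τ := by positivity
  have hX : (0 : ℤ) < 2 ^ (2 + a * k) := by positivity
  have hl1 : (1 : ℤ) ≤ 2 ^ l := one_le_pow₀ (by norm_num)
  have := hC (insert 0 (win U (2 * (2 ^ l * 2 ^ (2 + a * k))))) (τ ^ 2) (3 * a) τ (180000 * a ^ 7)
    (5000 * (a ^ 5 * τ)) τ k (20 * a ^ 2 * (326 * (a ^ 4 * τ))) (a ^ 4 * τ) l (2 ^ (2 + a * k)) b
    ?_ ?_ ?_ (COUNT.noUniq U hpos hU _) hX.le ?_ ?_ ?_ hτ1 ?_ ?_ hk.le ?_ ?_ ?_ ?_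
  · have e1 : l * (5000 * (a ^ 5 * τ)) = k * (3 * a) ^ 2 + 5000 * (a ^ 5 * τ) := by
      rw [hk, hl]; ring
    omega
  · refine (card_insert_le _ _).trans ?_
    refine Nat.succ_le_of_lt (lt_of_le_of_lt (card_le_card (win_mono ?_)) hc)
    rw [← pow_add, ← pow_succ']
    apply pow_le_pow_right₀ (by norm_num)
    have e1 : a * k = 180000 * (a ^ 8 * τ) := by rw [hk]; ring
    have e2 : 180001 * a ^ 8 * τ = 180001 * (a ^ 8 * τ) := by ring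
    have h1 : a ^ 8 * 1 ≤ a ^ 8 * τ := Nat.mul_le_mul_left _ hτ1
    have h2 : 1000 * a ^ 4 ≤ a ^ 8 := by
      rw [show a ^ 8 = a ^ 4 * a ^ 4 by ring]; exact Nat.mul_le_mul_right _ (by omega)
    omega
  · have e1 : 2 ^ (3 * a) = τ * τ ^ 2 := by rw [mul_comm 3 a, pow_mul, ← hτ]; ring
    have h1 : 3 * τ ^ 2 ≤ τ * τ ^ 2 := Nat.mul_le_mul_right _ (by omega)
    have h2 : 0 < τ ^ 2 := by positivity
    omega
  · intro v hv
    rcases mem_insert.mp hv with h | h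
    · omega
    · have := (mem_win.mp h).1
      omega
  · intro i hi
    have h1 : b i ≤ 2 ^ (2 + a * k) := by
      refine (hb1 i).2.trans ?_
      rw [pow_add, pow_mul]
      have : (2 * (((2 * (4 * (3 * a) + 2) : ℕ) : ℤ) + 1)) ^ i ≤ (2 ^ a) ^ k :=
        (pow_le_pow_left₀ (by positivity) hq i).trans
          (pow_le_pow_right₀ (one_le_pow₀ (by norm_num)) hi.le)
      linarith
    refine ⟨mem_insert_of_mem (mem_win.mpr ⟨hpos _ (hb1 i).1, ?_, (hb1 i).1⟩), h1⟩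
    have h2 : (1 : ℤ) * 2 ^ (2 + a * k) ≤ 2 ^ l * 2 ^ (2 + a * k) :=
      mul_le_mul_of_nonneg_right hl1 hX.le
    linarith
  · intro c hc'
    apply hb2 k c
    intro i
    have := hc' i
    push_cast at this ⊢
    linarith
  · have e1 : τ * (a ^ 4 * τ) = a ^ 4 * τ ^ 2 := by ring
    rw [e1]
    exact Nat.mul_le_mul_right _ (by omega)
  · have h1 : a ^ 4 * τ + l * τ ≤ 326 * (a ^ 4 * τ) := by
      have e1 : l * τ = 324 * (a ^ 4 * τ) + τ := by rw [hl]; ring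
      have h2 : 1 * τ ≤ a ^ 4 * τ := Nat.mul_le_mul_right _ (by omega)
      omega
    refine lt_of_le_of_lt (Nat.pow_le_pow_right (Nat.succ_pos _) h1) ?_
    rw [pow_mul 2 (20 * a ^ 2), hl]
    exact Nat.pow_lt_pow_left (COUNT.base_lt a τ ha hτ h4) (by positivity)
  · have h1 : (4 * (3 * a) + 2) * (20 * a ^ 2 * (326 * (a ^ 4 * τ)))
        ≤ (13 * a) * (20 * a ^ 2 * (326 * (a ^ 4 * τ))) := Nat.mul_le_mul_right _ (by omega)
    have e1 : (13 * a) * (20 * a ^ 2 * (326 * (a ^ 4 * τ))) = 84760 * (a ^ 7 * τ) := by ring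
    have e2 : 2 * (5000 * (a ^ 5 * τ)) * (3 * a) ^ 2 = 90000 * (a ^ 7 * τ) := by ring
    have e3 : k = 180000 * (a ^ 7 * τ) := by rw [hk]; ring
    omega
  · have : 0 < a ^ 7 := by positivity
    omega
  · exact Nat.le_self_pow (by norm_num) τ
  · have h1 : 1 * τ ≤ a ^ 5 * τ := Nat.mul_le_mul_right _ (Nat.one_le_pow _ _ ha1)
    omega
  · have e1 : 544 * τ ^ 2 * (3 * a) ^ 2 * (180000 * a ^ 7) = 881280000 * (a ^ 9 * τ ^ 2) := by ring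
    have e2 : (5000 * (a ^ 5 * τ)) ^ 2 = 25000000 * (a * (a ^ 9 * τ ^ 2)) := by ring
    have h1 : 200 * (a ^ 9 * τ ^ 2) ≤ a * (a ^ 9 * τ ^ 2) := Nat.mul_le_mul_right _ ha
    have h2 : 0 < a ^ 9 * τ ^ 2 := by positivity
    omega

end Pool.Agent.Lib.UL
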