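import Pool.Agent.Lib.UL.Blue

namespace Pool.Agent.Lib.UL

open Finset Pool.Agent.Lib.MP_0f05cd_nt

namespace EXT

/-- z is within formal distance m of r0, modulo the span of gs -/
def NearS (I : Finset ℕ) (b : ℕ → ℤ) (gs : List ℤ) (ρ : ℕ) (r0 : ℤ) (m : ℕ) (z : ℤ) : Prop :=
  ∃ φ : ℕ → ℤ, ∑ i ∈ I, (φ i).natAbs ≤ m ∧ z - r0 - ∑ i ∈ I, φ i * b i ∈ sp gs (m * ρ)

lemma NearS.add_w {I : Finset ℕ} {b : ℕ → ℤ} {gs : List ℤ} {ρ : ℕ} {r0 z α : ℤ} {m i : ℕ}
    (h : NearS I b gs ρ r0 m z) (hi : i ∈ I) (hα : α - b i ∈ sp gs ρ) :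
    NearS I b gs ρ r0 (m + 1) (z + α) := by
  obtain ⟨φ, h1, h2⟩ := h
  refine ⟨fun t => φ t + dl i t, ?_, ?_⟩
  · have := sum_dl_abs I i
    calc ∑ t ∈ I, (φ t + dl i t).natAbs ≤ ∑ t ∈ I, ((φ t).natAbs + (dl i t).natAbs) :=
          sum_le_sum (fun t _ => Int.natAbs_add_le _ _)
      _ ≤ m + 1 := by rw [sum_add_distrib]; omega
  · have h3 := sp_add h2 hα
    have e1 : z + α - r0 - ∑ t ∈ I, (φ t + dl i t) * b t
        = z - r0 - ∑ t ∈ I, φ t * b t + (α - b i) := by
      simp only [add_mul, sum_add_distrib, sum_dl_mul I b i hi]; ring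
    rw [e1, Nat.add_mul, Nat.one_mul]
    exact h3

lemma NearS.sub_w {I : Finset ℕ} {b : ℕ → ℤ} {gs : List ℤ} {ρ : ℕ} {r0 z α : ℤ} {m i : ℕ}
    (h : NearS I b gs ρ r0 m z) (hi : i ∈ I) (hα : α - b i ∈ sp gs ρ) :
    NearS I b gs ρ r0 (m + 1) (z - α) := by
  obtain ⟨φ, h1, h2⟩ := h
  refine ⟨fun t => φ t - dl i t, ?_, ?_⟩
  · have := sum_dl_abs I i
    calc ∑ t ∈ I, (φ t - dl i t).natAbs ≤ ∑ t ∈ I, ((φ t).natAbs + (dl i t).natAbs) :=
          sum_le_sum (fun t _ => Int.natAbs_sub_le _ _)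
      _ ≤ m + 1 := by rw [sum_add_distrib]; omega
  · have h3 := sp_sub h2 hα
    have e1 : z - α - r0 - ∑ t ∈ I, (φ t - dl i t) * b t
        = z - r0 - ∑ t ∈ I, φ t * b t - (α - b i) := by
      simp only [sub_mul, sum_sub_distrib, sum_dl_mul I b i hi]; ring
    rw [e1, Nat.add_mul, Nat.one_mul]
    exact h3

lemma NearS.mono {I : Finset ℕ} {b : ℕ → ℤ} {gs : List ℤ} {ρ : ℕ} {r0 z : ℤ} {m m' : ℕ}
    (h : NearS I b gs ρ r0 m z) (hm : m ≤ m') : NearS I b gs ρ r0 m' z := by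
  obtain ⟨φ, h1, h2⟩ := h
  exact ⟨φ, h1.trans hm, sp_mono (Nat.mul_le_mul_right _ hm) h2⟩

/-- the pair e has a representation with both ends in Z -/
def RepS (Φ V Z : Finset ℤ) (Cand : ℤ → Prop) (e : ℤ × ℤ) : Prop :=
  e.1 ∈ Φ ∧ e.2 ∈ Φ ∧ ∃ x ∈ V, ∃ y ∈ V, x ∈ Z ∧ -y ∈ Z ∧ x + y = e.1 + e.2 ∧
    Cand (e.1 - x) ∧ Cand (e.1 - y)

lemma piece (I : Finset ℕ) (b : ℕ → ℤ) (gs : List ℤ) (ρ l t a : ℕ) (F : ℕ → Finset ℤ)
    (V : Finset ℤ) (Cand : ℤ → Prop)
    (hw : Good I b gs (2 * l + 2) ((2 * l + 2) * ρ))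
    (hF : ∀ i ∈ I, ∀ α ∈ F i, α - b i ∈ sp gs ρ) (ht : ∀ i ∈ I, (F i).card ≤ t)
    (hM : ∀ g, Cand g → ((I.biUnion F).filter (fun β => β + g ∈ V)).card ≤ a)
    (r0 : ℤ) (P : Finset ℤ) (hP : ∀ z ∈ P, NearS I b gs ρ r0 l z)
    (E : Finset (ℤ × ℤ)) (hE : ∀ e ∈ E, RepS (I.biUnion F) V P Cand e) :
    E.card ≤ P.card * (l * t * (2 * a)) := by
  classical
  choose! φ hφ1 hφ2 using hP
  obtain ⟨S, hS⟩ : ∃ S : ℤ → Finset ℕ, ∀ z, S z = I.filter (fun i => φ z i ≠ 0) :=
    ⟨_, fun _ => rfl⟩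
  have hScard : ∀ z ∈ P, (S z).card ≤ l := fun z hz => by
    rw [hS]; exact (card_support_le I (φ z)).trans (hφ1 z hz)
  have hS'card : ∀ z ∈ P, ((S z).biUnion F).card ≤ l * t := by
    intro z hz
    refine card_biUnion_le.trans ?_
    refine (sum_le_card_nsmul _ _ t ?_).trans ?_
    · intro i hi
      rw [hS] at hi
      exact ht i (mem_filter.mp hi).1
    · rw [smul_eq_mul]
      exact Nat.mul_le_mul_right _ (hScard z hz)
  obtain ⟨Pop, hPopc, inP⟩ : ∃ Pop : ℤ → Finset ℤ, (∀ g, (Pop g).card ≤ a) ∧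
      ∀ g, Cand g → ∀ β ∈ I.biUnion F, β + g ∈ V → β ∈ Pop g := by
    refine ⟨fun g => if Cand g then (I.biUnion F).filter (fun β => β + g ∈ V) else ∅, ?_, ?_⟩
    · intro g
      by_cases hg : Cand g
      · simp only [if_pos hg]
        exact hM g hg
      · simp only [if_neg hg]
        simp
    · intro g hg β h1 h2
      simp only [if_pos hg]
      exact mem_filter.mpr ⟨h1, h2⟩
  have hsub : E ⊆ P.biUnion (fun z => ((S z).biUnion F).biUnion
      (fun α => {α} ×ˢ (Pop (α - z) ∪ Pop (α + z)))) := by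
    intro e he
    obtain ⟨h1, h2, x, hxV, y, hyV, hxP, hyP, hsum, hx1, hx2⟩ := hE e he
    obtain ⟨α, β⟩ := e
    simp only at h1 h2 hsum hx1 hx2
    obtain ⟨i, hiI, hα⟩ := mem_biUnion.mp h1
    obtain ⟨i', hiI', hβ⟩ := mem_biUnion.mp h2
    have hz := hw (fun t => φ x t - φ (-y) t - dl i t - dl i' t) ?_ ?_
    · have hi : i ∈ S x ∨ i ∈ S (-y) := by
        have := hz i hiI
        simp only [hS, mem_filter]
        by_contra hc
        push Not at hc
        rw [hc.1 hiI, hc.2 hiI] at this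
        simp only [dl] at this
        split_ifs at this <;> omega
      rcases hi with hi | hi
      · refine mem_biUnion.mpr ⟨x, hxP, mem_biUnion.mpr ⟨α, mem_biUnion.mpr ⟨i, hi, hα⟩,
          mem_product.mpr ⟨mem_singleton_self _, mem_union_left _ (inP _ hx1 β h2 ?_)⟩⟩⟩
        have : β + (α - x) = y := by omega
        rwa [this]
      · have e0 : α + -y = α - y := by ring
        refine mem_biUnion.mpr ⟨-y, hyP, mem_biUnion.mpr ⟨α, mem_biUnion.mpr ⟨i, hi, hα⟩,
          mem_product.mpr ⟨mem_singleton_self _, mem_union_right _ ?_⟩⟩⟩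
        rw [e0]
        refine inP _ hx2 β h2 ?_
        have : β + (α - y) = x := by omega
        rwa [this]
    · have a1 := hφ1 x hxP
      have a2 := hφ1 (-y) hyP
      have a3 := sum_dl_abs I i
      have a4 := sum_dl_abs I i'
      calc ∑ t ∈ I, (φ x t - φ (-y) t - dl i t - dl i' t).natAbs
          ≤ ∑ t ∈ I, ((φ x t).natAbs + (φ (-y) t).natAbs + (dl i t).natAbs + (dl i' t).natAbs) := by
            apply sum_le_sum
            intro t _
            omega
        _ ≤ 2 * l + 2 := by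
            simp only [sum_add_distrib]; omega
    · have a1 := hφ2 x hxP
      have a2 := hφ2 (-y) hyP
      have a3 := sp_add (sp_add (sp_sub a2 a1) (hF i hiI α hα)) (hF i' hiI' β hβ)
      have e1 : ∑ t ∈ I, (φ x t - φ (-y) t - dl i t - dl i' t) * b t
          = -y - r0 - ∑ t ∈ I, φ (-y) t * b t - (x - r0 - ∑ t ∈ I, φ x t * b t)
            + (α - b i) + (β - b i') := by
        simp only [sub_mul, sum_sub_distrib, sum_dl_mul I b i hiI, sum_dl_mul I b i' hiI']
        omega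
      have e2 : (2 * l + 2) * ρ = l * ρ + l * ρ + ρ + ρ := by ring
      rw [e1, e2]
      exact a3
  refine (card_le_card hsub).trans ?_
  refine card_biUnion_le.trans ?_
  rw [← smul_eq_mul]
  apply sum_le_card_nsmul
  intro z hz
  refine card_biUnion_le.trans ?_
  refine (sum_le_card_nsmul _ _ (2 * a) ?_).trans ?_
  · intro α _
    rw [card_product, card_singleton]
    have h1 := card_union_le (Pop (α - z)) (Pop (α + z))
    have := hPopc (α - z)
    have := hPopc (α + z)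
    omega
  · rw [smul_eq_mul]
    exact Nat.mul_le_mul_right _ (hS'card z hz)

lemma edge (I : Finset ℕ) (b : ℕ → ℤ) (gs : List ℤ) (ρ L t a : ℕ) (F : ℕ → Finset ℤ)
    (V : Finset ℤ) (Cand : ℤ → Prop)
    (hw : Good I b gs (4 * L + 2) ((4 * L + 2) * ρ))
    (hF : ∀ i ∈ I, ∀ α ∈ F i, α - b i ∈ sp gs ρ) (ht : ∀ i ∈ I, (F i).card ≤ t)
    (hM : ∀ g, Cand g → ((I.biUnion F).filter (fun β => β + g ∈ V)).card ≤ a)
    (Z : Finset ℤ) (hZ : Z.card < 2 ^ L)
    (E : Finset (ℤ × ℤ)) (hE : ∀ e ∈ E, RepS (I.biUnion F) V Z Cand e) :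
    E.card ≤ 2 * Z.card * (2 * L * t * (2 * a)) := by
  classical
  induction hn : Z.card using Nat.strong_induction_on generalizing Z E with
  | _ n ih =>
    rcases Z.eq_empty_or_nonempty with rfl | ⟨r0, hρ⟩
    · have : E = ∅ := by
        rw [eq_empty_iff_forall_notMem]
        intro e he
        obtain ⟨_, _, x, _, y, _, hx, _⟩ := hE e he
        simp at hx
      simp [this]
    obtain ⟨B, hB⟩ : ∃ B : ℕ → Finset ℤ, ∀ j z,
        z ∈ B j ↔ z ∈ Z ∧ NearS I b gs ρ r0 (2 * j) z :=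
      ⟨fun j => Z.filter (NearS I b gs ρ r0 (2 * j)), fun j z => mem_filter⟩
    have hBZ : ∀ j, B j ⊆ Z := fun j z hz => ((hB j z).mp hz).1
    have hρB : ∀ j, r0 ∈ B j := fun j =>
      (hB j r0).mpr ⟨hρ, fun _ => 0, by simp, by simpa using sp_zero gs _⟩
    obtain ⟨j, hjL, hj⟩ : ∃ j < L, (B (j + 1)).card ≤ 2 * (B j).card := by
      by_contra hc
      push Not at hc
      have : ∀ j ≤ L, 2 ^ j ≤ (B j).card := by
        intro j
        induction j with
        | zero => intro _; exact card_pos.mpr ⟨r0, hρB 0⟩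
        | succ j ihj =>
          intro hj
          have := ihj (by omega)
          have := hc j (by omega)
          rw [pow_succ]; omega
      have h1 := this L le_rfl
      have h2 : (B L).card ≤ Z.card := card_le_card (hBZ L)
      omega
    have hcard : (Z \ B j).card + (B j).card = Z.card := card_sdiff_add_card_eq_card (hBZ j)
    have hpos : 0 < (B j).card := card_pos.mpr ⟨r0, hρB j⟩
    have h2 := ih (Z \ B j).card (by omega) (Z \ B j) (by omega)
      (E.filter (RepS (I.biUnion F) V (Z \ B j) Cand)) (fun e he => (mem_filter.mp he).2) rfl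
    have hw' : Good I b gs (2 * (2 * L) + 2) ((2 * (2 * L) + 2) * ρ) := by
      have e1 : 2 * (2 * L) + 2 = 4 * L + 2 := by ring
      rw [e1]; exact hw
    have h1 := piece I b gs ρ (2 * L) t a F V Cand hw' hF ht hM r0 (B (j + 1))
      (fun z hz => ((hB _ z).mp hz).2.mono (by omega))
      (E.filter (fun e => ¬ RepS (I.biUnion F) V (Z \ B j) Cand e)) (by
        intro e he
        obtain ⟨he1, he2⟩ := mem_filter.mp he
        obtain ⟨a1, a2, x, hxV, y, hyV, hxZ, hyZ, hsum, hx1, hx2⟩ := hE e he1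
        refine ⟨a1, a2, x, hxV, y, hyV, ?_⟩
        obtain ⟨i, hiI, hα⟩ := mem_biUnion.mp a1
        obtain ⟨i', hiI', hβ⟩ := mem_biUnion.mp a2
        have hor : x ∈ B j ∨ -y ∈ B j := by
          by_contra hc
          push Not at hc
          exact he2 ⟨a1, a2, x, hxV, y, hyV, mem_sdiff.mpr ⟨hxZ, hc.1⟩,
            mem_sdiff.mpr ⟨hyZ, hc.2⟩, hsum, hx1, hx2⟩
        rcases hor with h | h
        · have hn := ((hB _ _).mp h).2
          refine ⟨(hB _ _).mpr ⟨hxZ, hn.mono (by omega)⟩, (hB _ _).mpr ⟨hyZ, ?_⟩, hsum, hx1, hx2⟩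
          have := (hn.sub_w hiI (hF i hiI _ hα)).sub_w hiI' (hF i' hiI' _ hβ)
          have e1 : x - e.1 - e.2 = -y := by omega
          rw [e1] at this
          exact this.mono (by omega)
        · have hn := ((hB _ _).mp h).2
          refine ⟨(hB _ _).mpr ⟨hxZ, ?_⟩, (hB _ _).mpr ⟨hyZ, hn.mono (by omega)⟩, hsum, hx1, hx2⟩
          have := (hn.add_w hiI (hF i hiI _ hα)).add_w hiI' (hF i' hiI' _ hβ)
          have e1 : -y + e.1 + e.2 = x := by omega
          rw [e1] at this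
          exact this.mono (by omega))
    have h3 := card_filter_add_card_filter_not (s := E) (RepS (I.biUnion F) V (Z \ B j) Cand)
    have h4 : (B (j + 1)).card * (2 * L * t * (2 * a))
        ≤ 2 * (B j).card * (2 * L * t * (2 * a)) := Nat.mul_le_mul_right _ hj
    rw [← hn, ← hcard]
    generalize 2 * L * t * (2 * a) = T at *
    nlinarith

end EXT

theorem st_EXT : St_EXT := by
  intro I b gs ρ L t a F V Cand hw hF ht hM hV E hE
  have hZ : (V ∪ V.image (fun v => -v)).card ≤ 2 * V.card := by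
    have h1 := card_union_le V (V.image (fun v => -v))
    have h2 : (V.image (fun v => -v)).card ≤ V.card := card_image_le
    omega
  have h := EXT.edge I b gs ρ L t a F V Cand hw hF ht hM (V ∪ V.image (fun v => -v))
    (by omega) E (by
      intro e he
      obtain ⟨a1, a2, x, hx, y, hy, hsum, h1, h2⟩ := hE e he
      exact ⟨a1, a2, x, hx, y, hy, mem_union_left _ hx,
        mem_union_right _ (mem_image.mpr ⟨y, hy, rfl⟩), hsum, h1, h2⟩)
  refine h.trans ?_
  calc 2 * (V ∪ V.image (fun v => -v)).card * (2 * L * t * (2 * a))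
      ≤ 2 * (2 * V.card) * (2 * L * t * (2 * a)) :=
        Nat.mul_le_mul_right _ (Nat.mul_le_mul_left _ hZ)
    _ = 16 * V.card * L * t * a := by ring

end Pool.Agent.Lib.UL
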