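import Pool.Agent.Lib.UL.Blue

namespace Pool.Agent.Lib.UL

open Finset Pool.Agent.Lib.MP_0f05cd_nt

namespace GRID

open Classical in
/-- the points of Y reached from v by the shifts in G, up to the span of D -/
noncomputable def ball (D : List ℤ) (r : ℕ) (Y : Finset ℤ) (G : List ℤ) (v : ℤ) : Finset ℤ :=
  Y.filter (fun z => ∃ u ∈ sp G 1, z - v - u ∈ sp D (G.length * r))

lemma mem_ball {D : List ℤ} {r : ℕ} {Y : Finset ℤ} {G : List ℤ} {v z : ℤ} :
    z ∈ ball D r Y G v ↔ z ∈ Y ∧ ∃ u ∈ sp G 1, z - v - u ∈ sp D (G.length * r) := by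
  simp [ball]

lemma self_mem {D : List ℤ} {r : ℕ} {Y : Finset ℤ} {G : List ℤ} {v : ℤ} (hv : v ∈ Y) :
    v ∈ ball D r Y G v :=
  mem_ball.mpr ⟨hv, 0, sp_zero _ _, by simpa using sp_zero D _⟩

lemma ball_sub {D : List ℤ} {r : ℕ} {Y : Finset ℤ} {G : List ℤ} (g v : ℤ) :
    ball D r Y G v ⊆ ball D r Y (g :: G) v := by
  intro z hz
  obtain ⟨h1, u, hu, h2⟩ := mem_ball.mp hz
  refine mem_ball.mpr ⟨h1, u, sp_cons_of hu, sp_mono ?_ h2⟩
  exact Nat.mul_le_mul_right _ (by simp)

lemma ball_up {D : List ℤ} {r : ℕ} {Y : Finset ℤ} {G : List ℤ} {g β y : ℤ}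
    (h : y - β - g ∈ sp D r) : ball D r Y G y ⊆ ball D r Y (g :: G) β := by
  intro z hz
  obtain ⟨h1, u, hu, h2⟩ := mem_ball.mp hz
  refine mem_ball.mpr ⟨h1, u + g, sp_cons_add hu, ?_⟩
  have h3 := sp_add h2 h
  have e1 : z - y - u + (y - β - g) = z - β - (u + g) := by ring
  have e2 : G.length * r + r = (g :: G).length * r := by
    rw [List.length_cons]; ring
  rwa [e1, e2] at h3

lemma ball_down {D : List ℤ} {r : ℕ} {Y : Finset ℤ} {G : List ℤ} {g β y : ℤ}
    (h : y - β - g ∈ sp D r) : ball D r Y G β ⊆ ball D r Y (g :: G) y := by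
  intro z hz
  obtain ⟨h1, u, hu, h2⟩ := mem_ball.mp hz
  have hug : u - g ∈ sp (g :: G) 1 :=
    mem_sp_cons.mpr ⟨-1, by omega, by omega, u, hu, by ring⟩
  refine mem_ball.mpr ⟨h1, u - g, hug, ?_⟩
  have h3 := sp_sub h2 h
  have e1 : z - β - u - (y - β - g) = z - y - (u - g) := by ring
  have e2 : G.length * r + r = (g :: G).length * r := by
    rw [List.length_cons]; ring
  rwa [e1, e2] at h3

lemma ball_disj {D : List ℤ} {r R : ℕ} {Y : Finset ℤ} {G : List ℤ} {g β y : ℤ}
    (hg : ¬ Inn D R G g) (hR : (2 * G.length + 1) * r ≤ R) (h : y - β - g ∈ sp D r) :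
    Disjoint (ball D r Y G β) (ball D r Y G y) := by
  rw [disjoint_left]
  intro z hz hz'
  obtain ⟨_, u, hu, h2⟩ := mem_ball.mp hz
  obtain ⟨_, u', hu', h2'⟩ := mem_ball.mp hz'
  apply hg
  refine ⟨u - u', sp_sub hu hu', ?_⟩
  have h3 := sp_sub (sp_sub h2 h2') h
  have e1 : z - β - u - (z - y - u') - (y - β - g) = g - (u - u') := by ring
  rw [e1] at h3
  refine sp_mono (le_trans (le_of_eq ?_) hR) h3
  ring

lemma key (D : List ℤ) (r R : ℕ) (Y F : Finset ℤ) (hFY : F ⊆ Y)
    (hF : ∀ β ∈ F, ∀ β' ∈ F, β - β' ∈ sp D (2 * r) → β = β') (e : ℤ → Finset ℤ)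
    (he : ∀ g, ∀ β ∈ e g, β ∈ F ∧ ∃ y ∈ Y, y - β - g ∈ sp D r) (G : List ℤ) :
    Diss D R G → (2 * G.length + 1) * r ≤ R →
      (G.map (fun g => (e g).card)).sum ≤ 2 * ∑ v ∈ Y, Nat.log 2 (ball D r Y G v).card := by
  classical
  induction G with
  | nil => intro _ _; simp
  | cons g G ih =>
    intro hD hR
    have hR' : (2 * G.length + 1) * r ≤ R := by
      refine le_trans (Nat.mul_le_mul_right _ ?_) hR
      rw [List.length_cons]; omega
    have h1 := ih hD.1 hR'
    have hg : ¬ Inn D R G g := hD.2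
    have hy : ∀ β ∈ e g, ∃ y ∈ Y, y - β - g ∈ sp D r := fun β hβ => (he g β hβ).2
    choose! y hyY hy using hy
    set Db := Y.filter (fun v => 2 * (ball D r Y G v).card ≤ (ball D r Y (g :: G) v).card)
      with hDb
    have hor : ∀ β ∈ e g, β ∈ Db ∨ y β ∈ Db := by
      intro β hβ
      have hd := ball_disj (Y := Y) hg hR' (hy β hβ)
      have hc := card_union_of_disjoint hd
      have c1 : (ball D r Y G β ∪ ball D r Y G (y β)).card ≤ (ball D r Y (g :: G) β).card :=
        card_le_card (union_subset (ball_sub g β) (ball_up (hy β hβ)))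
      have c2 : (ball D r Y G β ∪ ball D r Y G (y β)).card ≤ (ball D r Y (g :: G) (y β)).card :=
        card_le_card (union_subset (ball_down (hy β hβ)) (ball_sub g (y β)))
      rcases le_total (ball D r Y G β).card (ball D r Y G (y β)).card with h | h
      · exact Or.inl (mem_filter.mpr ⟨hFY (he g β hβ).1, by omega⟩)
      · exact Or.inr (mem_filter.mpr ⟨hyY β hβ, by omega⟩)
    have a1 : ((e g).filter (fun β => β ∈ Db)).card ≤ Db.card :=
      card_le_card (fun β hβ => (mem_filter.mp hβ).2)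
    have a2 : ((e g).filter (fun β => ¬ β ∈ Db)).card ≤ Db.card := by
      apply card_le_card_of_injOn y
      · intro β hβ
        have hβ' := mem_filter.mp (mem_coe.mp hβ)
        exact mem_coe.mpr ((hor β hβ'.1).resolve_left hβ'.2)
      · intro β hβ β' hβ' hyy
        have b1 := (mem_filter.mp (mem_coe.mp hβ)).1
        have b2 := (mem_filter.mp (mem_coe.mp hβ')).1
        apply hF β (he g β b1).1 β' (he g β' b2).1
        have h3 := sp_sub (hy β' b2) (hy β b1)
        have e1 : y β' - β' - g - (y β - β - g) = β - β' := by rw [hyy]; ring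
        have e2 : r + r = 2 * r := by ring
        rwa [e1, e2] at h3
    have a3 := card_filter_add_card_filter_not (s := e g) (fun β => β ∈ Db)
    have a4 : ∑ v ∈ Y, Nat.log 2 (ball D r Y G v).card + Db.card ≤
        ∑ v ∈ Y, Nat.log 2 (ball D r Y (g :: G) v).card := by
      rw [hDb, card_filter, ← sum_add_distrib]
      apply sum_le_sum
      intro v hv
      split_ifs with h
      · have hp : (ball D r Y G v).card ≠ 0 := (card_pos.mpr ⟨v, self_mem hv⟩).ne'
        rw [← Nat.log_mul_base (by norm_num) hp]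
        exact Nat.log_mono_right (by omega)
      · rw [add_zero]
        exact Nat.log_mono_right (card_le_card (ball_sub g v))
    rw [List.map_cons, List.sum_cons]
    omega

end GRID

theorem st_GRID : St_GRID := by
  classical
  intro D r R L Y F G hFY hF hD hR hY
  have h1 := GRID.key D r R Y F hFY hF
    (fun g => F.filter (fun β => ∃ y ∈ Y, y - β - g ∈ sp D r))
    (fun g β hβ => by simpa using hβ) G hD hR
  have h2 : ∑ v ∈ Y, Nat.log 2 (GRID.ball D r Y G v).card ≤ Y.card * L := by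
    rw [← smul_eq_mul]
    apply sum_le_card_nsmul
    intro v _
    have c1 : (GRID.ball D r Y G v).card ≤ Y.card :=
      card_le_card (fun z hz => (GRID.mem_ball.mp hz).1)
    calc Nat.log 2 (GRID.ball D r Y G v).card ≤ Nat.log 2 (2 ^ L) :=
          Nat.log_mono_right (by omega)
      _ = L := Nat.log_pow (by norm_num) L
  refine le_trans h1 ?_
  rw [mul_assoc]
  exact Nat.mul_le_mul_left _ h2

end Pool.Agent.Lib.UL
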