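import Pool.Agent.Lib.UL.Blue

namespace Pool.Agent.Lib.UL

open Finset Pool.Agent.Lib.MP_0f05cd_nt

theorem st_INT (hR : St_ROOT) : St_INT := by
  classical
  intro V D G n m0 m R μ w B Φ Y hn hpos hm0 hmR hP hΦ hB hw hY E hE
  obtain ⟨hc, hroot⟩ := hR V D n m0 hn
  set S : ℤ → ℤ → Finset ℤ := fun α z =>
    if α - z ∈ sp D ((n + 1) * m) then ∅
    else Φ.filter (fun β => ∃ y ∈ V, y - β - (α - z) ∈ sp D m) with hS
  have hSc : ∀ α z, (S α z).card ≤ 2 * μ := by
    intro α z
    simp only [hS]
    split_ifs with h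
    · simp
    · exact hP _ h _ ((filter_subset _ _).trans hΦ) (fun β hβ => (mem_filter.mp hβ).2)
  have hsub : E ⊆ Φ.biUnion (fun α => (Y α).biUnion (fun z => {α} ×ˢ S α z)) := by
    intro e he
    obtain ⟨h1, h2, x, hxV, y, hyV, hsum, hne, hinn⟩ := hE e he
    obtain ⟨α, β⟩ := e
    simp only at h1 h2 hsum hne hinn
    obtain ⟨z, hzB, hzle, hzc⟩ := hroot x hxV
    have hxz : x - z ∈ sp D m := sp_mono hm0 (hc _ _ hzc)
    have hfar : α - x ∉ sp D R := by
      intro h
      have a1 := Bot_le (hΦ h1) hxV h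
      have h' := sp_neg h
      rw [show -(α - x) = β - y by omega] at h'
      have a2 := Bot_le (hΦ h2) hyV h'
      omega
    have hzY : z ∈ Y α := by
      apply hY α h1 z hzB
      · have := hpos y hyV
        have := hB α h1
        have := hB β h2
        omega
      · obtain ⟨u, hu, hu'⟩ := hinn
        refine ⟨u, hu, ?_⟩
        have := sp_add hu' hxz
        rwa [show α - x - u + (x - z) = α - z - u by ring] at this
    refine mem_biUnion.mpr ⟨α, h1, mem_biUnion.mpr ⟨z, hzY,
      mem_product.mpr ⟨mem_singleton_self _, ?_⟩⟩⟩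
    have hg : α - z ∉ sp D ((n + 1) * m) := by
      intro h
      apply hfar
      have := sp_sub h hxz
      rw [show α - z - (x - z) = α - x by ring] at this
      exact sp_mono (by nlinarith) this
    simp only [hS, if_neg hg]
    refine mem_filter.mpr ⟨h2, y, hyV, ?_⟩
    have := sp_neg hxz
    rwa [show -(x - z) = y - β - (α - z) by omega] at this
  refine (card_le_card hsub).trans (card_biUnion_le.trans ?_)
  rw [mul_assoc, ← smul_eq_mul]
  apply sum_le_card_nsmul
  intro α hα
  refine card_biUnion_le.trans ?_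
  refine (sum_le_card_nsmul _ _ (2 * μ) ?_).trans ?_
  · intro z _
    rw [card_product, card_singleton, one_mul]
    exact hSc α z
  · rw [smul_eq_mul]
    exact Nat.mul_le_mul_right _ (hw α hα)

end Pool.Agent.Lib.UL
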