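import Pool.Agent.Lib.UL.Blue

namespace Pool.Agent.Lib.UL

open Finset Pool.Agent.Lib.MP_0f05cd_nt

namespace MAIN

lemma bound (hC : St_COUNT) {u : ℕ → ℕ} (hu : IsUlam u) (a : ℕ) (ha : 200 ≤ a) :
    u (4 ^ a - 1) ≤ 2 ^ (180001 * a ^ 8 * 2 ^ a) := by
  have hm := hu.strictMono
  have hpos : ∀ i, 0 < u i := fun i =>
    lt_of_lt_of_le (by rw [hu.1]; norm_num) (hm.monotone (Nat.zero_le i))
  have h := hC (Set.range (fun i => (u i : ℤ))) ?_ ?_ ?_ a ha
  · by_contra hc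
    push Not at hc
    have : win (Set.range (fun i => (u i : ℤ))) (2 ^ (180001 * a ^ 8 * 2 ^ a))
        ⊆ (range (4 ^ a - 1)).image (fun i => (u i : ℤ)) := by
      intro z hz
      obtain ⟨_, h2, i, rfl⟩ := mem_win.mp hz
      refine mem_image.mpr ⟨i, mem_range.mpr ?_, rfl⟩
      apply hm.lt_iff_lt.mp
      have : u i ≤ 2 ^ (180001 * a ^ 8 * 2 ^ a) := by
        simp only at h2
        exact_mod_cast h2
      omega
    have h1 := card_le_card this
    have h2 : ((range (4 ^ a - 1)).image (fun i => (u i : ℤ))).card ≤ 4 ^ a - 1 :=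
      card_image_le.trans (by simp)
    have h3 : 0 < 4 ^ a := by positivity
    omega
  · rintro _ ⟨i, rfl⟩
    have := hpos i
    simp only
    omega
  · rintro _ ⟨i, rfl⟩ _ ⟨j, rfl⟩ hne
    simp only at hne ⊢
    have hij : i ≠ j := by rintro rfl; exact hne rfl
    rcases lt_or_gt_of_ne hij with h | h
    · rcases hu.other_rep i j h with ⟨n, hn⟩ | ⟨i', j', h1, h2, h3⟩
      · exact Or.inl ⟨n, by simp only; omega⟩
      · exact Or.inr ⟨_, ⟨i', rfl⟩, _, ⟨j', rfl⟩, by simp only; omega, by simp only; omega,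
          by simp only; omega⟩
    · rcases hu.other_rep j i h with ⟨n, hn⟩ | ⟨i', j', h1, h2, h3⟩
      · exact Or.inl ⟨n, by simp only; omega⟩
      · exact Or.inr ⟨_, ⟨i', rfl⟩, _, ⟨j', rfl⟩, by simp only; omega, by simp only; omega,
          by simp only; omega⟩
  · intro y hy
    obtain ⟨n, hn1, hn2, hn3⟩ := hu.exists_idx y.toNat (by omega)
    obtain ⟨m, rfl⟩ : ∃ m, n = m + 1 := ⟨n - 1, by omega⟩
    have h1 := hu.succ_le m
    have h2 : u m < u (m + 1) := hm (by omega)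
    refine ⟨_, ⟨m + 2, rfl⟩, ?_, ?_⟩
    · simp only
      have : u (m + 1 + 1) = u (m + 2) := rfl
      omega
    · simp only
      omega

end MAIN

theorem st_MAIN (hC : St_COUNT) : St_MAIN := by
  intro u hu
  refine ⟨360002, 4 ^ 200, fun n hn => ?_⟩
  have hn0 : n ≠ 0 := by
    have : 0 < 4 ^ 200 := by positivity
    omega
  obtain ⟨c, hc1, hc2, hc3⟩ : ∃ c, 200 ≤ c ∧ 4 ^ c ≤ n ∧ n < 4 ^ (c + 1) :=
    ⟨Nat.log 4 n, Nat.le_log_of_pow_le (by norm_num) hn, Nat.pow_log_le_self 4 hn0,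
      Nat.lt_pow_succ_log_self (by norm_num) n⟩
  have h1 : u n ≤ 2 ^ (180001 * (c + 1) ^ 8 * 2 ^ (c + 1)) :=
    (hu.strictMono.monotone (by omega)).trans (MAIN.bound hC hu (c + 1) (by omega))
  have h2 : (u n : ℝ) ≤ 2 ^ (180001 * (c + 1) ^ 8 * 2 ^ (c + 1)) := by exact_mod_cast h1
  refine h2.trans ?_
  have h3 : (2 : ℝ) ≤ Real.exp 1 := by
    have := Real.add_one_le_exp (1 : ℝ); linarith
  refine (pow_le_pow_left₀ (by norm_num) h3 _).trans ?_
  rw [← Real.exp_nat_mul, mul_one, Real.exp_le_exp]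
  have hcr : (200 : ℝ) ≤ c := by exact_mod_cast hc1
  have hnr : (4 : ℝ) ^ c ≤ n := by exact_mod_cast hc2
  have h4 : (2 : ℝ) ^ c ≤ Real.sqrt n := by
    apply Real.le_sqrt_of_sq_le
    rw [← pow_mul, mul_comm, pow_mul]
    norm_num
    exact hnr
  have h5 : (c : ℝ) + 1 ≤ Real.log n := by
    have h9 := Real.log_le_log (by positivity) hnr
    rw [Real.log_pow] at h9
    have h10 : (1.3 : ℝ) ≤ Real.log 4 := by
      have : Real.log 4 = 2 * Real.log 2 := by
        rw [show (4 : ℝ) = 2 ^ 2 by norm_num, Real.log_pow]; norm_num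
      have := Real.log_two_gt_d9
      linarith
    nlinarith
  push_cast
  have h6 : ((c : ℝ) + 1) ^ 8 ≤ Real.log n ^ 8 := pow_le_pow_left₀ (by linarith) h5 8
  calc 180001 * ((c : ℝ) + 1) ^ 8 * 2 ^ (c + 1)
      = 360002 * (2 : ℝ) ^ c * ((c : ℝ) + 1) ^ 8 := by ring
    _ ≤ 360002 * Real.sqrt n * Real.log n ^ 8 := by gcongr

end Pool.Agent.Lib.UL
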