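import Pool.Agent.Lib.UL.Blue

namespace Pool.Agent.Lib.UL

open Finset Pool.Agent.Lib.MP_0f05cd_nt

namespace POP

lemma drop (hR : St_ROOT) (V : Finset ℤ) (D : List ℤ) (n m m' : ℕ) (hn : V.card ≤ n)
    (hm : (2 * n + 2) * m ≤ m') (hm1 : 1 ≤ m) (g : ℤ) (hg : g ∉ sp D ((n + 1) * m)) (S : Finset ℤ)
    (hS : S ⊆ Bot V D m') (hy : ∀ β ∈ S, ∃ y ∈ V, y - β - g ∈ sp D m) :
    S.card ≤ 2 * (Bot V D m \ Bot V (g :: D) m).card := by
  classical
  obtain ⟨hc, hroot⟩ := hR V D n m hn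
  choose! y hyV hy using hy
  choose! w hwB hwle hwc using hroot
  have hmm : m ≤ m' := le_trans (Nat.le_mul_of_pos_left m (by omega)) hm
  have hSB : ∀ β ∈ S, β ∈ Bot V D m := fun β hβ => Bot_anti (fun z hz => sp_mono hmm hz) (hS hβ)
  have hne : ∀ β ∈ S, w (y β) ≠ β := by
    intro β hβ he
    apply hg
    have h1 := hc _ _ (hwc _ (hyV β hβ))
    rw [he] at h1
    have := sp_sub h1 (hy β hβ)
    rw [show y β - β - (y β - β - g) = g by ring] at this
    rwa [Nat.succ_mul]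
  have hconn : ∀ β ∈ S, Conn V (g :: D) m (w (y β)) β := by
    intro β hβ
    have h1 : Conn V (g :: D) m (w (y β)) (y β) :=
      (hwc _ (hyV β hβ)).symm.of_le (fun z hz => sp_cons_of hz)
    refine Relation.ReflTransGen.tail h1 ⟨hyV β hβ, (mem_Bot.mp (hS hβ)).1, ?_⟩
    exact mem_sp_cons.mpr ⟨1, by omega, by omega, _, hy β hβ, by ring⟩
  have hinj : Set.InjOn (fun β => w (y β)) S := by
    intro β hβ β' hβ' he
    simp only at he
    apply Bot_eq (hS hβ) (hS hβ')
    have h1 := hc _ _ (hwc _ (hyV β hβ))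
    have h2 := hc _ _ (hwc _ (hyV β' hβ'))
    rw [he] at h1
    have := sp_add (sp_sub h1 h2) (sp_sub (hy β' hβ') (hy β hβ))
    rw [show y β - w (y β') - (y β' - w (y β')) + (y β' - β' - g - (y β - β - g)) = β - β'
      by ring] at this
    exact sp_mono (by nlinarith) this
  have h1 : (S.filter (fun β => w (y β) < β)).card ≤ (Bot V D m \ Bot V (g :: D) m).card := by
    apply card_le_card
    intro β hβ
    obtain ⟨hβ, hlt⟩ := mem_filter.mp hβ
    refine mem_sdiff.mpr ⟨hSB β hβ, fun hb => ?_⟩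
    have := (mem_Bot.mp hb).2 _ (hconn β hβ).symm
    omega
  have h2 : (S.filter (fun β => ¬ w (y β) < β)).card ≤ (Bot V D m \ Bot V (g :: D) m).card := by
    apply card_le_card_of_injOn (fun β => w (y β))
    · intro β hβ
      obtain ⟨hβ, hlt⟩ := mem_filter.mp (mem_coe.mp hβ)
      refine mem_coe.mpr (mem_sdiff.mpr ⟨hwB _ (hyV β hβ), fun hb => ?_⟩)
      have : w (y β) ≤ β := (mem_Bot.mp hb).2 _ (hconn β hβ)
      have := hne β hβ
      omega
    · exact hinj.mono (fun β hβ => (mem_filter.mp (mem_coe.mp hβ)).1)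
  have := card_filter_add_card_filter_not (s := S) (fun β => w (y β) < β)
  omega

end POP

theorem st_POP (hR : St_ROOT) : St_POP := by
  classical
  intro V n L μ Λ hn hΛ
  set f : List ℤ → ℕ := fun D =>
    ∑ j ∈ range L, (Bot V D (Λ ^ (2 * j + 1))).card + μ * D.length with hf
  obtain ⟨D, hD⟩ : ∃ D, ∀ D', f D ≤ f D' := by
    have hex : ∃ z, ∃ D, f D = z := ⟨_, [], rfl⟩
    obtain ⟨D, hD⟩ := Nat.find_spec hex
    exact ⟨D, fun D' => hD ▸ Nat.find_min' hex ⟨D', rfl⟩⟩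
  refine ⟨D, ?_, ?_⟩
  · have h1 := hD []
    have h2 : ∑ j ∈ range L, (Bot V [] (Λ ^ (2 * j + 1))).card ≤ L * n := by
      refine (sum_le_card_nsmul _ _ n (fun j _ => ?_)).trans (by simp)
      exact (card_le_card (fun v hv => (mem_Bot.mp hv).1)).trans hn
    simp only [hf, List.length_nil] at h1
    omega
  · intro j hj g hg S hS hy
    have h1 := POP.drop hR V D n (Λ ^ (2 * j + 1)) (Λ ^ (2 * j + 2)) hn
      (by rw [pow_succ Λ (2 * j + 1), mul_comm]; exact Nat.mul_le_mul_left _ hΛ)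
      (Nat.one_le_pow _ _ (by omega)) g hg S hS hy
    have h2 := hD (g :: D)
    have hsub : ∀ i, Bot V (g :: D) (Λ ^ (2 * i + 1)) ⊆ Bot V D (Λ ^ (2 * i + 1)) :=
      fun i => Bot_anti (fun z hz => sp_cons_of hz)
    have h3 := card_sdiff_add_card_eq_card (hsub j)
    have h4 := sum_erase_add (range L) (fun i => (Bot V D (Λ ^ (2 * i + 1))).card)
      (mem_range.mpr hj)
    have h5 := sum_erase_add (range L) (fun i => (Bot V (g :: D) (Λ ^ (2 * i + 1))).card)
      (mem_range.mpr hj)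
    have h6 : ∑ i ∈ (range L).erase j, (Bot V (g :: D) (Λ ^ (2 * i + 1))).card
        ≤ ∑ i ∈ (range L).erase j, (Bot V D (Λ ^ (2 * i + 1))).card :=
      sum_le_sum (fun i _ => card_le_card (hsub i))
    simp only [hf, List.length_cons, Nat.mul_succ] at h2
    omega

end Pool.Agent.Lib.UL
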