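import Pool.Agent.Lib.UL.Blue

namespace Pool.Agent.Lib.UL

open Finset Pool.Agent.Lib.MP_0f05cd_nt

namespace ROOT

lemma conn_mem {V : Finset ℤ} {D : List ℤ} {m : ℕ} {u v : ℤ} (hu : u ∈ V) (h : Conn V D m u v) :
    v ∈ V := by
  induction h with
  | refl => exact hu
  | tail _ hs _ => exact hs.2.1

lemma conn_sp (V : Finset ℤ) (D : List ℤ) (n m : ℕ) (hn : V.card ≤ n) (u v : ℤ)
    (h : Conn V D m u v) : u - v ∈ sp D (n * m) := by
  classical
  by_cases hu : u ∈ V
  swap
  · rcases Relation.ReflTransGen.cases_head h with rfl | ⟨c, hc, _⟩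
    · simpa using sp_zero D (n * m)
    · exact absurd hc.1 hu
  set A : ℕ → Finset ℤ := fun q => V.filter (fun w => u - w ∈ sp D (q * m)) with hA
  have hmono : ∀ q, A q ⊆ A (q + 1) := by
    intro q w hw
    obtain ⟨h1, h2⟩ := mem_filter.mp hw
    exact mem_filter.mpr ⟨h1, sp_mono (Nat.mul_le_mul_right _ (by omega)) h2⟩
  have huA : ∀ q, u ∈ A q := fun q => mem_filter.mpr ⟨hu, by simpa using sp_zero D (q * m)⟩
  obtain ⟨q, hq, hqe⟩ : ∃ q ≤ n, A (q + 1) ⊆ A q := by
    by_contra hc
    push Not at hc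
    have : ∀ q ≤ n + 1, q ≤ (A q).card := by
      intro q
      induction q with
      | zero => intro _; omega
      | succ q ih =>
        intro hq
        have h1 := ih (by omega)
        have h2 : (A q).card < (A (q + 1)).card :=
          card_lt_card ⟨hmono q, hc q (by omega)⟩
        omega
    have h1 := this (n + 1) le_rfl
    have h2 : (A (n + 1)).card ≤ V.card := card_filter_le _ _
    omega
  have hv : v ∈ A q := by
    induction h with
    | refl => exact huA q
    | @tail c d _ hs ih =>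
      apply hqe
      refine mem_filter.mpr ⟨hs.2.1, ?_⟩
      have := sp_add (mem_filter.mp ih).2 hs.2.2
      rw [show u - c + (c - d) = u - d by ring] at this
      rwa [Nat.succ_mul]
  exact sp_mono (Nat.mul_le_mul_right _ hq) (mem_filter.mp hv).2

end ROOT

theorem st_ROOT : St_ROOT := by
  classical
  intro V D n m hn
  refine ⟨ROOT.conn_sp V D n m hn, fun v hv => ?_⟩
  have hne : (V.filter (fun w => Conn V D m v w)).Nonempty :=
    ⟨v, mem_filter.mpr ⟨hv, Relation.ReflTransGen.refl⟩⟩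
  obtain ⟨w, hw, hmin⟩ := exists_min_image _ id hne
  obtain ⟨hwV, hvw⟩ := mem_filter.mp hw
  refine ⟨w, mem_Bot.mpr ⟨hwV, fun u hu => ?_⟩,
    hmin v (mem_filter.mpr ⟨hv, Relation.ReflTransGen.refl⟩), hvw⟩
  exact hmin u (mem_filter.mpr ⟨ROOT.conn_mem hwV hu, Relation.ReflTransGen.trans hvw hu⟩)

end Pool.Agent.Lib.UL
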