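import Pool.Agent.Lib.UL.Blue

namespace Pool.Agent.Lib.UL

open Finset Pool.Agent.Lib.MP_0f05cd_nt

theorem st_SEL : St_SEL := by
  classical
  intro D R cap t a I e he
  set ψ : List ℤ → ℕ := fun G => ∑ i ∈ I, min (G.map (e i)).sum cap with hψ
  have hψle : ∀ G, ψ G ≤ I.card * cap := by
    intro G
    refine (sum_le_card_nsmul _ _ cap (fun i _ => min_le_right _ _)).trans (by simp)
  set f : List ℤ → ℕ := fun G => I.card * cap - ψ G + a * G.length with hf
  obtain ⟨G, hG, hmin⟩ : ∃ G, Diss D R G ∧ ∀ G', Diss D R G' → f G ≤ f G' := by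
    have hex : ∃ z, ∃ G, Diss D R G ∧ f G = z := ⟨_, [], trivial, rfl⟩
    obtain ⟨G, hG, hG'⟩ := Nat.find_spec hex
    exact ⟨G, hG, fun G' h' => hG' ▸ Nat.find_min' hex ⟨G', h', rfl⟩⟩
  refine ⟨G, hG, ?_, ?_⟩
  · have h1 := hmin [] trivial
    simp only [hf, List.length_nil] at h1
    omega
  · intro g hg A hA hcap
    have h1 := hmin (g :: G) ⟨hG, hg⟩
    have h2 : ψ G + ∑ i ∈ A, e i g ≤ ψ (g :: G) := by
      have e1 : ∑ i ∈ A, e i g = ∑ i ∈ I, if i ∈ A then e i g else 0 := by
        rw [← sum_filter, filter_mem_eq_inter, inter_eq_right.mpr hA]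
      simp only [hψ]
      rw [e1, ← sum_add_distrib]
      apply sum_le_sum
      intro i hi
      simp only [List.map_cons, List.sum_cons]
      split_ifs with h
      · have := hcap i h
        have := he i hi g
        omega
      · omega
    have h3 := hψle (g :: G)
    simp only [hf, List.length_cons, Nat.mul_succ] at h1
    omega

end Pool.Agent.Lib.UL
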