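import Pool.Agent.Lib.UL.Blue

namespace Pool.Agent.Lib.UL

open Finset Pool.Agent.Lib.MP_0f05cd_nt

namespace STEP

lemma stable (N : ℕ → ℕ) (L : ℕ) (h0 : N 0 < 2 ^ L) (hL : 1 ≤ N L) :
    ∃ j < L, N j ≤ 2 * N (j + 1) := by
  by_contra hc
  push Not at hc
  have : ∀ j ≤ L, 2 ^ j * N j ≤ N 0 := by
    intro j
    induction j with
    | zero => intro _; simp
    | succ j ih =>
      intro hj
      have h1 := ih (by omega)
      have h2 := hc j (by omega)
      calc 2 ^ (j + 1) * N (j + 1) = 2 ^ j * (2 * N (j + 1)) := by ring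
        _ ≤ 2 ^ j * N j := Nat.mul_le_mul_left _ h2.le
        _ ≤ N 0 := h1
  have h1 := this L le_rfl
  have h2 : 2 ^ L * 1 ≤ 2 ^ L * N L := Nat.mul_le_mul_left _ hL
  omega

end STEP

theorem st_STEP (hG : St_GOOD) (hA : St_ACT) : St_STEP := by
  classical
  intro V D gs n L μ q σ T k L0 ρ B b hn hL hpos hNU hB hD hP hb hL0 hne hk hkq hq hT hσ1 hσ2
  obtain ⟨Gd, hGk, hGc, hGood⟩ := hG k (4 * L + 2) ((4 * L + 2) * ρ) L0 b gs hb hL0
  set N : ℕ → ℕ → ℕ := fun i j => (Wn V gs ρ B (b i) ∩ Bot V D ((2 ^ L) ^ (2 * j))).card with hN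
  have hNn : ∀ i j, N i j < 2 ^ L := by
    intro i j
    have : N i j ≤ V.card := card_le_card (fun z hz => (mem_Bot.mp (mem_inter.mp hz).2).1)
    omega
  have hanti : ∀ j j', j ≤ j' → Bot V D ((2 ^ L) ^ (2 * j')) ⊆ Bot V D ((2 ^ L) ^ (2 * j)) :=
    fun j j' h => Bot_anti (fun z hz => sp_mono (Nat.pow_le_pow_right (by positivity) (by omega)) hz)
  have hN1 : ∀ i < k, ∀ j ≤ L, 1 ≤ N i j := by
    intro i hi j hj
    exact card_pos.mpr ((hne i hi).mono (inter_subset_inter_left (hanti j L hj)))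
  have hst : ∀ i ∈ Gd, ∃ j < L, N i j ≤ 2 * N i (j + 1) := fun i hi =>
    STEP.stable (N i) L (hNn i 0) (hN1 i (mem_range.mp (hGk hi)) L le_rfl)
  choose! J hJ1 hJ2 using hst
  have hL1 : 1 ≤ L := by
    rcases Nat.eq_zero_or_pos L with h | h
    · exfalso
      have hL00 : L0 ≠ 0 := by
        rintro rfl
        simp at hL0
      have := hN1 0 (by nlinarith [Nat.pos_of_ne_zero hL00]) 0 (by omega)
      have := hNn 0 0
      subst h
      omega
    · exact h
  obtain ⟨⟨j, e⟩, hje, hcard⟩ := exists_le_card_fiber_of_mul_le_card_of_maps_to (s := Gd)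
    (t := range L ×ˢ range L) (f := fun i => (J i, Nat.log 2 (N i (J i + 1)))) (n := 2 * σ)
    (by
      intro i hi
      refine mem_product.mpr ⟨mem_range.mpr (hJ1 i hi), mem_range.mpr ?_⟩
      exact Nat.log_lt_of_lt_pow' (by omega) (hNn _ _))
    ⟨(0, 0), by simp; omega⟩
    (by rw [card_product, card_range]; nlinarith)
  set I := Gd.filter (fun i => (J i, Nat.log 2 (N i (J i + 1))) = (j, e)) with hI
  have hjL : j < L := mem_range.mp (mem_product.mp hje).1
  have hIG : I ⊆ Gd := filter_subset _ _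
  have hIk : ∀ i ∈ I, i < k := fun i hi => mem_range.mp (hGk (hIG hi))
  have hIp : ∀ i ∈ I, 2 ^ e ≤ N i (j + 1) ∧ N i j < 4 * 2 ^ e := by
    intro i hi
    obtain ⟨h1, h2⟩ := mem_filter.mp hi
    obtain ⟨h3, h4⟩ := Prod.mk.inj h2
    have h5 := hJ2 i h1
    rw [h3] at h4 h5
    have h6 := hN1 i (hIk i hi) (j + 1) (by omega)
    have h7 := Nat.pow_log_le_self 2 (x := N i (j + 1)) (by omega)
    have h8 := Nat.lt_pow_succ_log_self (b := 2) (by norm_num) (N i (j + 1))
    rw [h4] at h7 h8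
    rw [pow_succ] at h8
    omega
  have e1 : (2 ^ L) ^ (2 * j + 1) = 2 ^ L * (2 ^ L) ^ (2 * j) := by ring
  have e2 : (2 ^ L) ^ (2 * j + 2) = 2 ^ L * (2 ^ L * (2 ^ L) ^ (2 * j)) := by ring
  have hF : ∀ i ∈ I, ∃ F ⊆ Wn V gs ρ B (b i) ∩ Bot V D (2 ^ L * (2 ^ L * (2 ^ L) ^ (2 * j))),
      F.card = 2 ^ e := by
    intro i hi
    apply exists_subset_card_eq
    rw [← e2]
    exact (hIp i hi).1
  choose! F hF1 hF2 using hF
  have hGI : Good I b gs (4 * L + 2) ((4 * L + 2) * ρ) := by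
    intro c h1 h2 i hi
    have key : ∀ (φ : ℕ → ℤ → ℤ), (∀ i, φ i 0 = 0) →
        ∑ i ∈ Gd, φ i (if i ∈ I then c i else 0) = ∑ i ∈ I, φ i (c i) := by
      intro φ h0
      rw [← sum_subset hIG]
      · exact sum_congr rfl (fun i hi => by rw [if_pos hi])
      · intro i _ hi
        rw [if_neg hi, h0]
    have := hGood (fun i => if i ∈ I then c i else 0) ?_ ?_ i (hIG hi)
    · simpa [hi] using this
    · have k1 := key (fun _ z => (z.natAbs : ℤ)) (by simp)
      have : ((∑ i ∈ Gd, (if i ∈ I then c i else 0).natAbs : ℕ) : ℤ)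
          = ((∑ i ∈ I, (c i).natAbs : ℕ) : ℤ) := by
        rw [Nat.cast_sum, Nat.cast_sum]; exact k1
      have := Nat.cast_injective this
      omega
    · have k2 := key (fun i z => z * b i) (by simp)
      rw [k2]; exact h2
  have hIc : I.card ≤ k := by
    have := card_le_card (hIG.trans hGk)
    rwa [card_range] at this
  obtain ⟨G, hGl, hact⟩ := hA V D gs n L μ q σ T (2 ^ e) ρ (4 * (2 ^ L) ^ (2 * L))
    ((2 ^ L) ^ (2 * j)) B I b F hn hL hpos hNU hD (by rw [← e2, ← e1]; exact hP j hjL)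
    (Nat.one_le_pow _ _ (by positivity)) hGI hF1 hF2 (Nat.one_le_pow _ _ (by norm_num))
    (by rw [← e2]; exact Nat.mul_le_mul_left _ (Nat.pow_le_pow_right (by positivity) (by omega)))
    (hIc.trans hkq) hq hT hσ1 hσ2
  refine ⟨G, hGl, ?_⟩
  set N' : ℕ → ℕ → ℕ := fun i j => (Wn V (G ++ gs) (ρ + 4 * (2 ^ L) ^ (2 * L)) (2 * B) (b i) ∩
    Bot V D ((2 ^ L) ^ (2 * j))).card with hN'
  have hmono : ∀ i j, N i j ≤ N' i j := fun i j =>
    card_le_card (inter_subset_inter_right (Wn_mono G (by omega) (by omega)))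
  set Fu := I.filter (fun i => ¬ N' i j < 8 * 2 ^ e) with hFu
  have hFc : σ ≤ Fu.card := by
    have h1 := card_filter_add_card_filter_not (s := I) (fun i => N' i j < 8 * 2 ^ e)
    have h2 : (I.filter (fun i => N' i j < 8 * 2 ^ e)).card < σ := hact
    rw [← hFu] at h1
    omega
  have hFk : Fu ⊆ range k := (filter_subset _ _).trans (hIG.trans hGk)
  have e3 : Fu.card = ∑ i ∈ range k, if i ∈ Fu then 1 else 0 := by
    rw [← sum_filter, filter_mem_eq_inter, inter_eq_right.mpr hFk]; simp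
  refine le_trans (Nat.add_le_add_left hFc _) ?_
  show ∑ i ∈ range k, ∑ j ∈ range L, Nat.log 2 (N i j) + Fu.card
    ≤ ∑ i ∈ range k, ∑ j ∈ range L, Nat.log 2 (N' i j)
  rw [e3, ← sum_add_distrib]
  apply sum_le_sum
  intro i hi
  split_ifs with h
  · apply sum_lt_sum (fun j _ => Nat.log_mono_right (hmono i j))
    refine ⟨j, mem_range.mpr hjL, ?_⟩
    obtain ⟨h1, h2⟩ := mem_filter.mp h
    have h3 := (hIp i h1).2
    have h4 := hN1 i (mem_range.mp hi) j hjL.le
    have h5 : Nat.log 2 (N i j * 2) ≤ Nat.log 2 (N' i j) := Nat.log_mono_right (by omega)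
    rw [Nat.log_mul_base (by norm_num) (by omega)] at h5
    omega
  · rw [add_zero]
    exact sum_le_sum (fun j _ => Nat.log_mono_right (hmono i j))

end Pool.Agent.Lib.UL
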