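import Pool.Agent.Lib.UL.B_GOOD
import Pool.Agent.Lib.UL.B_ROOT
import Pool.Agent.Lib.UL.B_POP
import Pool.Agent.Lib.UL.B_GRID
import Pool.Agent.Lib.UL.B_EXT
import Pool.Agent.Lib.UL.B_SEL
import Pool.Agent.Lib.UL.B_INT
import Pool.Agent.Lib.UL.B_ACT
import Pool.Agent.Lib.UL.B_STEP
import Pool.Agent.Lib.UL.B_CORE
import Pool.Agent.Lib.UL.B_COUNT
import Pool.Agent.Lib.UL.B_MAIN

namespace Pool.Agent.Lib.UL

theorem all_MAIN : St_MAIN :=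
  st_MAIN (st_COUNT (st_CORE st_ROOT (st_POP st_ROOT) (st_STEP st_GOOD
    (st_ACT st_ROOT st_GRID st_EXT st_SEL (st_INT st_ROOT)))))

end Pool.Agent.Lib.UL
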