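import Pool.Agent.Lib.UL.Blue

namespace Pool.Agent.Lib.UL

open Finset Pool.Agent.Lib.MP_0f05cd_nt

theorem st_GOOD : St_GOOD := by
  classical
  intro k h ρ L0 b gs hb hL
  unfold Good
  by_contra hcon
  push Not at hcon
  have key : ∀ L ≤ L0, ∃ D : Finset ℕ, D.card ≤ h * L ∧ ∃ S : Finset ℤ, S.card = 2 ^ L ∧
      ∀ s ∈ S, s ∈ sp gs (ρ * L) ∧ ∃ c : ℕ → ℤ, (∀ i, |c i| ≤ h) ∧ (∀ i, i ∉ D → c i = 0) ∧
        s = ∑ i ∈ range k, c i * b i := by
    intro L
    induction L with
    | zero =>
      intro _
      refine ⟨∅, by simp, {0}, by simp, ?_⟩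
      intro s hs
      rw [mem_singleton] at hs
      subst hs
      exact ⟨sp_zero _ _, fun _ => 0, by simp, by simp, by simp⟩
    | succ L ih =>
      intro hL1
      obtain ⟨D, hD, S, hS, hSp⟩ := ih (by omega)
      have hG : k ≤ (range k \ D).card + h * L0 := by
        have h1 : (range k).card ≤ (range k \ D).card + D.card := card_le_card_sdiff_add_card
        have h2 : h * L ≤ h * L0 := Nat.mul_le_mul_left _ (by omega)
        rw [card_range] at h1
        omega
      obtain ⟨c', hc1, hc2, i0, hi0, hi0'⟩ := hcon (range k \ D) sdiff_subset hG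
      set G := range k \ D with hGdef
      set c'' : ℕ → ℤ := fun i => if i ∈ G then c' i else 0 with hc''
      set σ : ℤ := ∑ i ∈ G, c' i * b i with hσ
      have hσ' : σ = ∑ i ∈ range k, c'' i * b i := by
        rw [hσ, ← sum_subset (s₁ := G) sdiff_subset]
        · apply sum_congr rfl
          intro i hi
          simp [hc'', hi]
        · intro i _ hi
          simp [hc'', hi]
      have hbd : ∀ i, |c'' i| ≤ h := by
        intro i
        simp only [hc'']
        split_ifs with hi
        · have : (c' i).natAbs ≤ ∑ i ∈ G, (c' i).natAbs :=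
            single_le_sum (f := fun i => (c' i).natAbs) (fun _ _ => Nat.zero_le _) hi
          rw [← Int.natCast_natAbs]
          exact_mod_cast this.trans hc1
        · simp
      have hD0 : ∀ i ∈ D, c'' i = 0 := by
        intro i hi
        simp [hc'', hGdef, hi]
      refine ⟨D ∪ G.filter (fun i => c' i ≠ 0), ?_, S ∪ S.image (· + σ), ?_, ?_⟩
      · have := card_support_le G c'
        have h2 := card_union_le D (G.filter (fun i => c' i ≠ 0))
        rw [Nat.mul_succ]
        omega
      · rw [card_union_of_disjoint, card_image_of_injective _ (add_left_injective σ), hS]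
        · ring
        · rw [disjoint_left]
          intro s hs hs'
          obtain ⟨s', hs'', hss⟩ := mem_image.mp hs'
          obtain ⟨_, c1, hc1b, hc1D, hc1s⟩ := hSp s hs
          obtain ⟨_, c2, hc2b, hc2D, hc2s⟩ := hSp s' hs''
          have hz := hb (fun i => c2 i + c'' i - c1 i) ?_ ?_ i0 (mem_sdiff.mp hi0).1
          · have hnD : i0 ∉ D := (mem_sdiff.mp hi0).2
            rw [hc1D i0 hnD, hc2D i0 hnD] at hz
            simp [hc'', hi0] at hz
            exact hi0' hz
          · intro i
            by_cases hi : i ∈ D
            · rw [hD0 i hi]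
              have := hc1b i; have := hc2b i
              rw [abs_le] at *
              constructor <;> omega
            · rw [hc1D i hi, hc2D i hi]
              have := hbd i
              rw [abs_le] at *
              constructor <;> omega
          · simp only [add_mul, sub_mul, sum_add_distrib, sum_sub_distrib]
            rw [← hc1s, ← hc2s, ← hσ', hss, sub_self]
      · intro s hs
        rcases mem_union.mp hs with hs | hs
        · obtain ⟨h1, c1, hc1b, hc1D, hc1s⟩ := hSp s hs
          refine ⟨sp_mono (Nat.mul_le_mul_left _ (by omega)) h1, c1, hc1b, ?_, hc1s⟩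
          intro i hi
          exact hc1D i (fun h => hi (mem_union_left _ h))
        · obtain ⟨s', hs', rfl⟩ := mem_image.mp hs
          obtain ⟨h1, c1, hc1b, hc1D, hc1s⟩ := hSp s' hs'
          refine ⟨by rw [Nat.mul_succ]; exact sp_add h1 hc2, fun i => c1 i + c'' i, ?_, ?_, ?_⟩
          · intro i
            by_cases hi : i ∈ D
            · simp only [hD0 i hi, add_zero]; exact hc1b i
            · simp only [hc1D i hi, zero_add]; exact hbd i
          · intro i hi
            rw [mem_union, not_or] at hi
            simp only [hc1D i hi.1, zero_add, hc'']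
            split_ifs with hiG
            · by_contra hne
              exact hi.2 (mem_filter.mpr ⟨hiG, hne⟩)
            · rfl
          · simp only [add_mul, sum_add_distrib]
            rw [← hc1s, ← hσ']
  obtain ⟨D, _, S, hS, hSp⟩ := key L0 le_rfl
  have : S.card ≤ (sp gs (ρ * L0)).card := card_le_card (fun s hs => (hSp s hs).1)
  have := card_sp gs (ρ * L0)
  omega

end Pool.Agent.Lib.UL
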