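import Pool.Agent.Lib.MP_0f05cd_nt.Main

namespace Pool.Agent.Lib.UL

open Finset Pool.Agent.Lib.MP_0f05cd_nt

/-- joined by a chain inside V whose steps lie in the span of radius m -/
def Conn (V : Finset ℤ) (D : List ℤ) (m : ℕ) : ℤ → ℤ → Prop :=
  Relation.ReflTransGen (fun a b => a ∈ V ∧ b ∈ V ∧ a - b ∈ sp D m)

open Classical in
/-- least elements of the classes of Conn -/
noncomputable def Bot (V : Finset ℤ) (D : List ℤ) (m : ℕ) : Finset ℤ :=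
  V.filter (fun v => ∀ u, Conn V D m v u → v ≤ u)

/-- inside the span of G (radius 2) plus the span of D (radius R) -/
def Inn (D : List ℤ) (R : ℕ) (G : List ℤ) (g : ℤ) : Prop :=
  ∃ u ∈ sp G 2, g - u ∈ sp D R

/-- each entry is outside the span of the later entries, modulo D -/
def Diss (D : List ℤ) (R : ℕ) : List ℤ → Prop
  | [] => True
  | g :: G => Diss D R G ∧ ¬ Inn D R G g

open Classical in
/-- the part of V below B in the fibre over c -/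
noncomputable def Wn (V : Finset ℤ) (gs : List ℤ) (ρ : ℕ) (B c : ℤ) : Finset ℤ :=
  V.filter (fun v => v ≤ B ∧ v - c ∈ sp gs ρ)

/-- a shift far from the span of D moves few bottoms close to V -/
def PopD (V : Finset ℤ) (D : List ℤ) (n m m' μ : ℕ) : Prop :=
  ∀ g : ℤ, g ∉ sp D ((n + 1) * m) → ∀ S : Finset ℤ, S ⊆ Bot V D m' →
    (∀ β ∈ S, ∃ y ∈ V, y - β - g ∈ sp D m) → S.card ≤ 2 * μ

/-- every sum of two different positive elements up to B has a second representation -/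
def NoUniq (V : Finset ℤ) (B : ℤ) : Prop :=
  ∀ a ∈ V, ∀ b ∈ V, a ≠ b → 0 < a → 0 < b → a ≤ B → b ≤ B →
    ∃ x ∈ V, ∃ y ∈ V, x + y = a + b ∧ x ≠ a ∧ x ≠ b

/-- the base points over I are dissociated modulo the span of gs -/
def Good (I : Finset ℕ) (b : ℕ → ℤ) (gs : List ℤ) (h ρ : ℕ) : Prop :=
  ∀ c : ℕ → ℤ, ∑ i ∈ I, (c i).natAbs ≤ h → ∑ i ∈ I, c i * b i ∈ sp gs ρ → ∀ i ∈ I, c i = 0

/-- the potential -/
noncomputable def pot (V : Finset ℤ) (D gs : List ℤ) (ρ : ℕ) (B : ℤ) (b : ℕ → ℤ) (k L : ℕ) : ℕ :=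
  ∑ i ∈ range k, ∑ j ∈ range L,
    Nat.log 2 (Wn V gs ρ B (b i) ∩ Bot V D ((2 ^ L) ^ (2 * j))).card

def St_GOOD : Prop :=
  ∀ (k h ρ L0 : ℕ) (b : ℕ → ℤ) (gs : List ℤ),
    (∀ c : ℕ → ℤ, (∀ i, |c i| ≤ 2 * h) → ∑ i ∈ range k, c i * b i = 0 →
      ∀ i ∈ range k, c i = 0) →
    (2 * (ρ * L0) + 1) ^ gs.length < 2 ^ L0 →
    ∃ G ⊆ range k, k ≤ G.card + h * L0 ∧ Good G b gs h ρ

def St_ROOT : Prop :=
  ∀ (V : Finset ℤ) (D : List ℤ) (n m : ℕ), V.card ≤ n →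
    (∀ u v, Conn V D m u v → u - v ∈ sp D (n * m)) ∧
    (∀ v ∈ V, ∃ w ∈ Bot V D m, w ≤ v ∧ Conn V D m v w)

def St_POP : Prop :=
  ∀ (V : Finset ℤ) (n L μ Λ : ℕ), V.card ≤ n → 2 * n + 2 ≤ Λ →
    ∃ D : List ℤ, μ * D.length ≤ L * n ∧
      ∀ j < L, PopD V D n (Λ ^ (2 * j + 1)) (Λ ^ (2 * j + 2)) μ

open Classical in
def St_GRID : Prop :=
  ∀ (D : List ℤ) (r R L : ℕ) (Y F : Finset ℤ) (G : List ℤ), F ⊆ Y →
    (∀ β ∈ F, ∀ β' ∈ F, β - β' ∈ sp D (2 * r) → β = β') → Diss D R G →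
    (2 * G.length + 1) * r ≤ R → Y.card < 2 ^ L →
    (G.map (fun g => (F.filter (fun β => ∃ y ∈ Y, y - β - g ∈ sp D r)).card)).sum
      ≤ 2 * Y.card * L

open Classical in
def St_EXT : Prop :=
  ∀ (I : Finset ℕ) (b : ℕ → ℤ) (gs : List ℤ) (ρ L t a : ℕ) (F : ℕ → Finset ℤ) (V : Finset ℤ)
    (Cand : ℤ → Prop),
    Good I b gs (4 * L + 2) ((4 * L + 2) * ρ) →
    (∀ i ∈ I, ∀ α ∈ F i, α - b i ∈ sp gs ρ) → (∀ i ∈ I, (F i).card ≤ t) →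
    (∀ g, Cand g → ((I.biUnion F).filter (fun β => β + g ∈ V)).card ≤ a) →
    2 * V.card < 2 ^ L →
    ∀ E : Finset (ℤ × ℤ),
      (∀ e ∈ E, e.1 ∈ I.biUnion F ∧ e.2 ∈ I.biUnion F ∧ ∃ x ∈ V, ∃ y ∈ V,
        x + y = e.1 + e.2 ∧ Cand (e.1 - x) ∧ Cand (e.1 - y)) →
      E.card ≤ 16 * V.card * L * t * a

open Classical in
/-- the extremal list of shifts -/
def St_SEL : Prop :=
  ∀ (D : List ℤ) (R cap t a : ℕ) (I : Finset ℕ) (e : ℕ → ℤ → ℕ),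
    (∀ i ∈ I, ∀ g, e i g ≤ t) →
    ∃ G : List ℤ, Diss D R G ∧ a * G.length ≤ I.card * cap ∧
      ∀ g, ¬ Inn D R G g → ∀ A ⊆ I, (∀ i ∈ A, (G.map (e i)).sum + t ≤ cap) →
        ∑ i ∈ A, e i g ≤ a

open Classical in
/-- pairs served through a shift inside the span are few -/
def St_INT : Prop :=
  ∀ (V : Finset ℤ) (D G : List ℤ) (n m0 m R μ w : ℕ) (B : ℤ) (Φ : Finset ℤ) (Y : ℤ → Finset ℤ),
    V.card ≤ n → (∀ v ∈ V, 0 ≤ v) → n * m0 ≤ m → (n + 2) * m ≤ R → PopD V D n m R μ →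
    Φ ⊆ Bot V D R → (∀ α ∈ Φ, α ≤ B) → (∀ α ∈ Φ, (Y α).card ≤ w) →
    (∀ α ∈ Φ, ∀ z ∈ Bot V D m0, z ≤ 2 * B → Inn D (R + m) G (α - z) → z ∈ Y α) →
    ∀ E : Finset (ℤ × ℤ),
      (∀ e ∈ E, e.1 ∈ Φ ∧ e.2 ∈ Φ ∧ ∃ x ∈ V, ∃ y ∈ V,
        x + y = e.1 + e.2 ∧ x ≠ e.1 ∧ Inn D R G (e.1 - x)) →
      E.card ≤ Φ.card * w * (2 * μ)

open Classical in
def St_ACT : Prop :=
  ∀ (V : Finset ℤ) (D gs : List ℤ) (n L μ q σ T t ρ ρ1 m0 : ℕ) (B : ℤ) (I : Finset ℕ)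
    (b : ℕ → ℤ) (F : ℕ → Finset ℤ),
    V.card ≤ n → 2 * n < 2 ^ L → (∀ v ∈ V, 0 ≤ v) → NoUniq V B →
    (∀ (m : ℕ) (z : ℤ), z ∈ sp D m → z ∈ sp gs m) →
    PopD V D n (2 ^ L * m0) (2 ^ L * (2 ^ L * m0)) μ → 1 ≤ m0 →
    Good I b gs (4 * L + 2) ((4 * L + 2) * ρ) →
    (∀ i ∈ I, F i ⊆ Wn V gs ρ B (b i) ∩ Bot V D (2 ^ L * (2 ^ L * m0))) →
    (∀ i ∈ I, (F i).card = t) → 1 ≤ t →
    4 * (2 ^ L * (2 ^ L * m0)) ≤ ρ1 → I.card ≤ q * T → 1 ≤ q → T ≤ n →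
    2 + 32 * μ ≤ σ → 544 * n * L ^ 2 * q < σ ^ 2 →
    ∃ G : List ℤ, G.length ≤ T ∧
      (I.filter (fun i =>
        (Wn V (G ++ gs) (ρ + ρ1) (2 * B) (b i) ∩ Bot V D m0).card < 8 * t)).card < σ

def St_STEP : Prop :=
  ∀ (V : Finset ℤ) (D gs : List ℤ) (n L μ q σ T k L0 ρ : ℕ) (B : ℤ) (b : ℕ → ℤ),
    V.card ≤ n → 2 * n < 2 ^ L → (∀ v ∈ V, 0 ≤ v) → NoUniq V B → 0 ≤ B →
    (∀ (m : ℕ) (z : ℤ), z ∈ sp D m → z ∈ sp gs m) →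
    (∀ j < L, PopD V D n ((2 ^ L) ^ (2 * j + 1)) ((2 ^ L) ^ (2 * j + 2)) μ) →
    (∀ c : ℕ → ℤ, (∀ i, |c i| ≤ 2 * ((4 * L + 2 : ℕ) : ℤ)) → ∑ i ∈ range k, c i * b i = 0 →
      ∀ i ∈ range k, c i = 0) →
    (2 * ((4 * L + 2) * ρ * L0) + 1) ^ gs.length < 2 ^ L0 →
    (∀ i < k, (Wn V gs ρ B (b i) ∩ Bot V D ((2 ^ L) ^ (2 * L))).Nonempty) →
    2 * σ * L ^ 2 + (4 * L + 2) * L0 ≤ k → k ≤ q * T → 1 ≤ q → T ≤ n →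
    2 + 32 * μ ≤ σ → 544 * n * L ^ 2 * q < σ ^ 2 →
    ∃ G : List ℤ, G.length ≤ T ∧
      pot V D gs ρ B b k L + σ ≤ pot V D (G ++ gs) (ρ + 4 * (2 ^ L) ^ (2 * L)) (2 * B) b k L

def St_CORE : Prop :=
  ∀ (V : Finset ℤ) (n L μ q σ T k L0 d l : ℕ) (X : ℤ) (b : ℕ → ℤ),
    V.card ≤ n → 2 * n < 2 ^ L → (∀ v ∈ V, 0 ≤ v) → NoUniq V (2 ^ l * X) → 0 ≤ X →
    (∀ i < k, b i ∈ V ∧ b i ≤ X) →
    (∀ c : ℕ → ℤ, (∀ i, |c i| ≤ 2 * ((4 * L + 2 : ℕ) : ℤ)) → ∑ i ∈ range k, c i * b i = 0 →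
      ∀ i ∈ range k, c i = 0) →
    L * n ≤ μ * d → 1 ≤ μ →
    (2 * ((4 * L + 2) * ((n + 4 * l) * (2 ^ L) ^ (2 * L)) * L0) + 1) ^ (d + l * T) < 2 ^ L0 →
    2 * σ * L ^ 2 + (4 * L + 2) * L0 ≤ k → k ≤ q * T → 1 ≤ q → T ≤ n →
    2 + 32 * μ ≤ σ → 544 * n * L ^ 2 * q < σ ^ 2 →
    l * σ ≤ k * L ^ 2

def St_COUNT : Prop :=
  ∀ (U : Set ℤ), (∀ u ∈ U, 1 ≤ u) →
    (∀ a ∈ U, ∀ b ∈ U, a ≠ b → a + b ∈ U ∨ ∃ x ∈ U, ∃ y ∈ U, x + y = a + b ∧ x ≠ a ∧ x ≠ b) →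
    (∀ y, 2 ≤ y → ∃ u ∈ U, y < u ∧ u ≤ 2 * y) → ∀ a : ℕ, 200 ≤ a →
    4 ^ a ≤ (win U (2 ^ (180001 * a ^ 8 * 2 ^ a))).card

def St_MAIN : Prop :=
  ∀ u : ℕ → ℕ, IsUlam u → ∃ C : ℝ, ∃ n₀ : ℕ, ∀ n : ℕ, n₀ ≤ n →
    (u n : ℝ) ≤ Real.exp (C * Real.sqrt n * Real.log n ^ 8)

lemma sp_sub {gs : List ℤ} {m m' : ℕ} {a b : ℤ} (ha : a ∈ sp gs m) (hb : b ∈ sp gs m') :
    a - b ∈ sp gs (m + m') := by
  rw [sub_eq_add_neg]; exact sp_add ha (sp_neg hb)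

lemma sp_app_right (G : List ℤ) {gs : List ℤ} {m : ℕ} {a : ℤ} (ha : a ∈ sp gs m) :
    a ∈ sp (G ++ gs) m := by
  induction G with
  | nil => exact ha
  | cons g G ih => exact sp_cons_of ih

lemma sp_app_left {G : List ℤ} (gs : List ℤ) {m : ℕ} {a : ℤ} (ha : a ∈ sp G m) :
    a ∈ sp (G ++ gs) m := by
  induction G generalizing a with
  | nil =>
    have : a = 0 := by simpa [sp] using ha
    rw [this]; exact sp_zero _ _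
  | cons g G ih =>
    obtain ⟨μ, h1, h2, s, hs, rfl⟩ := mem_sp_cons.mp ha
    exact mem_sp_cons.mpr ⟨μ, h1, h2, s, ih hs, rfl⟩

lemma sp_of_mem {G : List ℤ} {g : ℤ} (hg : g ∈ G) : g ∈ sp G 1 := by
  induction G with
  | nil => simp at hg
  | cons a G ih =>
    rcases List.mem_cons.mp hg with h | h
    · rw [h]; simpa using sp_cons_add (g := a) (sp_zero G 1)
    · exact sp_cons_of (ih h)

lemma mem_Bot {V : Finset ℤ} {D : List ℤ} {m : ℕ} {v : ℤ} :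
    v ∈ Bot V D m ↔ v ∈ V ∧ ∀ u, Conn V D m v u → v ≤ u := by
  simp [Bot]

lemma mem_Wn {V : Finset ℤ} {gs : List ℤ} {ρ : ℕ} {B c v : ℤ} :
    v ∈ Wn V gs ρ B c ↔ v ∈ V ∧ v ≤ B ∧ v - c ∈ sp gs ρ := by
  simp [Wn]

lemma Conn.symm {V : Finset ℤ} {D : List ℤ} {m : ℕ} {u v : ℤ} (h : Conn V D m u v) :
    Conn V D m v u := by
  induction h with
  | refl => exact Relation.ReflTransGen.refl
  | tail _ hs ih =>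
    refine Relation.ReflTransGen.head ⟨hs.2.1, hs.1, ?_⟩ ih
    have := sp_neg hs.2.2
    rwa [neg_sub] at this

lemma Conn.of_le {V : Finset ℤ} {D D' : List ℤ} {m m' : ℕ}
    (hD : ∀ z, z ∈ sp D m → z ∈ sp D' m') {u v : ℤ} (h : Conn V D m u v) : Conn V D' m' u v := by
  induction h with
  | refl => exact Relation.ReflTransGen.refl
  | tail _ hs ih => exact Relation.ReflTransGen.tail ih ⟨hs.1, hs.2.1, hD _ hs.2.2⟩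

lemma Bot_anti {V : Finset ℤ} {D D' : List ℤ} {m m' : ℕ}
    (hD : ∀ z, z ∈ sp D m → z ∈ sp D' m') : Bot V D' m' ⊆ Bot V D m := by
  intro v hv
  rw [mem_Bot] at *
  exact ⟨hv.1, fun u hu => hv.2 u (hu.of_le hD)⟩

lemma Bot_le {V : Finset ℤ} {D : List ℤ} {m : ℕ} {u v : ℤ} (hv : v ∈ Bot V D m) (hu : u ∈ V)
    (h : v - u ∈ sp D m) : v ≤ u :=
  (mem_Bot.mp hv).2 u (Relation.ReflTransGen.single ⟨(mem_Bot.mp hv).1, hu, h⟩)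

lemma Bot_eq {V : Finset ℤ} {D : List ℤ} {m : ℕ} {u v : ℤ} (hv : v ∈ Bot V D m)
    (hu : u ∈ Bot V D m) (h : v - u ∈ sp D m) : v = u := by
  have h' := sp_neg h
  rw [neg_sub] at h'
  exact le_antisymm (Bot_le hv (mem_Bot.mp hu).1 h) (Bot_le hu (mem_Bot.mp hv).1 h')

lemma Wn_mono {V : Finset ℤ} {gs : List ℤ} (G : List ℤ) {ρ ρ' : ℕ} {B B' c : ℤ} (h1 : ρ ≤ ρ')
    (h2 : B ≤ B') : Wn V gs ρ B c ⊆ Wn V (G ++ gs) ρ' B' c := by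
  intro v hv
  rw [mem_Wn] at *
  exact ⟨hv.1, hv.2.1.trans h2, sp_app_right G (sp_mono h1 hv.2.2)⟩

lemma Inn.neg {D G : List ℤ} {R : ℕ} {g : ℤ} (h : Inn D R G g) : Inn D R G (-g) := by
  obtain ⟨u, hu, hg⟩ := h
  refine ⟨-u, sp_neg hu, ?_⟩
  have := sp_neg hg
  rwa [show -(g - u) = -g - -u by ring] at this

end Pool.Agent.Lib.UL
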